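import Pool.Agent.Lib.MP_38b438_an.Defs

set_option autoImplicit false

/-!
Invariant measures on cycles of the doubling map, and upper bounds for integrals of functions of
`2 cos 2πx` against invariant measures.
-/

open MeasureTheory Set Topology
open scoped ENNReal

namespace Pool.Agent.Lib.MP_38b438_an

theorem doubling_coe (x : ℝ) : doubling (x : UnitAddCircle) = ((2 * x : ℝ) : UnitAddCircle) := by
  unfold doubling
  rw [← AddCircle.coe_add, two_mul]

theorem continuous_doubling : Continuous doubling := continuous_id.add continuous_id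

theorem measurable_doubling : Measurable doubling := continuous_doubling.measurable

/-- The uniform probability measure on `x, 2x, …, 2^(p-1) x`. -/
noncomputable def cycleMeasure (p : ℕ) (x : UnitAddCircle) : Measure UnitAddCircle :=
  ((p : ℝ≥0∞)⁻¹) • ∑ i ∈ Finset.range p, Measure.dirac (doubling^[i] x)

theorem isInvariantProb_cycleMeasure {p : ℕ} (hp : 0 < p) {x : UnitAddCircle}
    (hx : doubling^[p] x = x) : IsInvariantProb (cycleMeasure p x) := by
  constructor
  · constructor
    unfold cycleMeasure
    rw [Measure.smul_apply, Measure.finsetSum_apply]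
    simp only [measure_univ, Finset.sum_const, Finset.card_range, nsmul_eq_mul, mul_one,
      smul_eq_mul]
    exact ENNReal.inv_mul_cancel (by exact_mod_cast hp.ne') (ENNReal.natCast_ne_top p)
  · unfold cycleMeasure
    rw [Measure.map_smul]
    congr 1
    rw [← Measure.mapₗ_apply_of_measurable measurable_doubling, map_sum]
    have h : ∀ i ∈ Finset.range p, Measure.mapₗ doubling (Measure.dirac (doubling^[i] x)) =
        Measure.dirac (doubling^[i + 1] x) := by
      intro i _
      rw [Measure.mapₗ_apply_of_measurable measurable_doubling,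
        Measure.map_dirac' measurable_doubling, Function.iterate_succ_apply']
    rw [Finset.sum_congr rfl h]
    obtain ⟨q, rfl⟩ := Nat.exists_eq_succ_of_ne_zero hp.ne'
    rw [Finset.sum_range_succ, Finset.sum_range_succ' (fun i => Measure.dirac (doubling^[i] x))]
    rw [Nat.succ_eq_add_one] at hx
    rw [hx]
    rfl

theorem integral_cycleMeasure {p : ℕ} {x : UnitAddCircle} (f : UnitAddCircle → ℝ)
    (hf : Continuous f) :
    ∫ y, f y ∂(cycleMeasure p x) = (p : ℝ)⁻¹ * ∑ i ∈ Finset.range p, f (doubling^[i] x) := by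
  unfold cycleMeasure
  rw [integral_smul_measure, integral_finsetSum_measure]
  · simp only [integral_dirac, ENNReal.toReal_inv, ENNReal.toReal_natCast, smul_eq_mul]
  · intro i _
    exact hf.integrable_of_hasCompactSupport (HasCompactSupport.of_compactSpace f)

theorem mem_support_cycleMeasure {p : ℕ} {x : UnitAddCircle} {i : ℕ} (hi : i < p) :
    doubling^[i] x ∈ (cycleMeasure p x).support := by
  rw [Measure.mem_support_iff_forall]
  intro U hU
  have h1 : (Measure.dirac (doubling^[i] x)) U = 1 :=
    Measure.dirac_apply_of_mem (mem_of_mem_nhds hU)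
  unfold cycleMeasure
  rw [Measure.smul_apply, Measure.finsetSum_apply, smul_eq_mul]
  apply ENNReal.mul_pos
  · exact ENNReal.inv_ne_zero.mpr (ENNReal.natCast_ne_top p)
  · intro h
    have := (Finset.sum_eq_zero_iff.mp h) i (Finset.mem_range.mpr hi)
    rw [h1] at this
    exact one_ne_zero this

/-- The average of two invariant probability measures. -/
theorem isInvariantProb_average {μ ν : Measure UnitAddCircle} (hμ : IsInvariantProb μ)
    (hν : IsInvariantProb ν) : IsInvariantProb ((2 : ℝ≥0∞)⁻¹ • (μ + ν)) := by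
  obtain ⟨hμ1, hμ2⟩ := hμ
  obtain ⟨hν1, hν2⟩ := hν
  constructor
  · constructor
    rw [Measure.smul_apply, Measure.add_apply, measure_univ, measure_univ, smul_eq_mul,
      one_add_one_eq_two]
    exact ENNReal.inv_mul_cancel two_ne_zero ENNReal.ofNat_ne_top
  · rw [Measure.map_smul, Measure.map_add _ _ measurable_doubling, hμ2, hν2]

/-- The function `2 cos 2πx` on the circle. -/
noncomputable def cosTwo (x : UnitAddCircle) : ℝ := 2 * (fourier 1 x : ℂ).re

theorem cosTwo_coe (x : ℝ) : cosTwo (x : UnitAddCircle) = 2 * Real.cos (2 * Real.pi * x) := by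
  unfold cosTwo
  rw [fourier_coe_apply]
  have : (2 * (Real.pi : ℂ) * Complex.I * ((1 : ℤ) : ℂ) * (x : ℂ) / ((1 : ℝ) : ℂ)) =
      ((2 * Real.pi * x : ℝ) : ℂ) * Complex.I := by
    push_cast
    ring
  rw [this, Complex.exp_ofReal_mul_I_re]

theorem continuous_cosTwo : Continuous cosTwo := by
  unfold cosTwo
  fun_prop

theorem cosTwo_doubling (x : UnitAddCircle) : cosTwo (doubling x) = cosTwo x ^ 2 - 2 := by
  obtain ⟨t, rfl⟩ := QuotientAddGroup.mk_surjective x
  rw [doubling_coe, cosTwo_coe, cosTwo_coe]
  have : 2 * Real.pi * (2 * t) = 2 * (2 * Real.pi * t) := by ring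
  rw [this, Real.cos_two_mul]
  ring

theorem cosTwo_mem (x : UnitAddCircle) : cosTwo x ∈ Icc (-2 : ℝ) 2 := by
  obtain ⟨t, rfl⟩ := QuotientAddGroup.mk_surjective x
  rw [cosTwo_coe]
  have h1 := Real.neg_one_le_cos (2 * Real.pi * t)
  have h2 := Real.cos_le_one (2 * Real.pi * t)
  constructor <;> linarith

/-- An upper bound for the integrals of `φ (2 cos 2πx)` against invariant measures. -/
theorem integral_le_of_subaction {φ H : ℝ → ℝ} (hφ : Continuous φ) (hH : Continuous H) {β : ℝ}
    (h : ∀ x ∈ Icc (-2 : ℝ) 2, φ x + H x - H (x ^ 2 - 2) ≤ β) {ν : Measure UnitAddCircle}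
    (hν : IsInvariantProb ν) : ∫ x, φ (cosTwo x) ∂ν ≤ β := by
  obtain ⟨hν1, hν2⟩ := hν
  have hint : ∀ g : UnitAddCircle → ℝ, Continuous g → Integrable g ν := fun g hg =>
    hg.integrable_of_hasCompactSupport (HasCompactSupport.of_compactSpace g)
  have hcH : Continuous fun x => H (cosTwo x) := hH.comp continuous_cosTwo
  have hcφ : Continuous fun x => φ (cosTwo x) := hφ.comp continuous_cosTwo
  have hcH2 : Continuous fun x => H (cosTwo (doubling x)) := hcH.comp continuous_doubling
  have h1 : ∫ x, H (cosTwo (doubling x)) ∂ν = ∫ x, H (cosTwo x) ∂ν := by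
    conv_rhs => rw [← hν2]
    rw [integral_map measurable_doubling.aemeasurable
      (hcH.aestronglyMeasurable)]
  have h2 : ∫ x, (φ (cosTwo x) + H (cosTwo x) - H (cosTwo (doubling x))) ∂ν ≤ ∫ _x, β ∂ν := by
    apply integral_mono
    · exact (((hint _ hcφ).add (hint _ hcH)).sub (hint _ hcH2))
    · exact integrable_const β
    · intro x
      change φ (cosTwo x) + H (cosTwo x) - H (cosTwo (doubling x)) ≤ β
      rw [cosTwo_doubling]
      exact h _ (cosTwo_mem x)
  have h3 : ∫ x, (φ (cosTwo x) + H (cosTwo x) - H (cosTwo (doubling x))) ∂ν =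
      ∫ x, φ (cosTwo x) ∂ν + ∫ x, H (cosTwo x) ∂ν - ∫ x, H (cosTwo (doubling x)) ∂ν := by
    rw [← integral_add (hint _ hcφ) (hint _ hcH)]
    exact integral_sub ((hint _ hcφ).add (hint _ hcH)) (hint _ hcH2)
  rw [h3, h1] at h2
  simp only [integral_const, probReal_univ, smul_eq_mul, one_mul] at h2
  linarith

end Pool.Agent.Lib.MP_38b438_an
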