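import Pool.Agent.Lib.MP_38b438_an.Cert5
import Pool.Agent.Lib.MP_38b438_an.Invariant

set_option autoImplicit false

/-!
Numerical enclosures of `2 cos (2π 3 2^j / 43)` and upper bounds for the gap function there.
-/

namespace Pool.Agent.Lib.MP_38b438_an

theorem sq_sub_two_pos {u lo hi lo' hi' : ℝ} (h : lo ≤ u ∧ u ≤ hi) (h0 : 0 ≤ lo)
    (h3 : lo' ≤ lo ^ 2 - 2) (h4 : hi ^ 2 - 2 ≤ hi') : lo' ≤ u ^ 2 - 2 ∧ u ^ 2 - 2 ≤ hi' := by
  obtain ⟨h1, h2⟩ := h
  constructor <;> nlinarith

theorem sq_sub_two_neg {u lo hi lo' hi' : ℝ} (h : lo ≤ u ∧ u ≤ hi) (h0 : hi ≤ 0)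
    (h3 : lo' ≤ hi ^ 2 - 2) (h4 : lo ^ 2 - 2 ≤ hi') : lo' ≤ u ^ 2 - 2 ∧ u ^ 2 - 2 ≤ hi' := by
  obtain ⟨h1, h2⟩ := h
  constructor <;> nlinarith

/-- `2 cos (2π 3 / (43 · 2^7) · 2^k)`. -/
noncomputable def wseq (k : ℕ) : ℝ := 2 * Real.cos (3 * Real.pi / 2752 * 2 ^ k)

theorem wseq_succ (k : ℕ) : wseq (k + 1) = wseq k ^ 2 - 2 := by
  unfold wseq
  rw [pow_succ, show 3 * Real.pi / 2752 * (2 ^ k * 2) = 2 * (3 * Real.pi / 2752 * 2 ^ k) by ring,
    Real.cos_two_mul]
  ring

theorem wseq_0 : (499997067851/250000000000 : ℝ) ≤ wseq 0 ∧ wseq 0 ≤ 1999988271441/1000000000000 := by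
  have h1 := Real.pi_gt_d6
  have h2 := Real.pi_lt_d6
  set x : ℝ := 3 * Real.pi / 2752 * 2 ^ 0 with hx
  have hx1 : (1178097/344000000 : ℝ) ≤ x := by rw [hx]; norm_num; linarith
  have hx2 : x ≤ (9424779/2752000000 : ℝ) := by rw [hx]; norm_num; linarith
  have hx0 : 0 ≤ x := le_trans (by norm_num) hx1
  have h3 := Real.cos_bound (x := x) (by rw [abs_of_nonneg hx0]; linarith)
  rw [abs_of_nonneg hx0, abs_le] at h3
  have h4 : x ^ 2 ≤ (9424779/2752000000 : ℝ) ^ 2 := by gcongr
  have h5 : (1178097/344000000 : ℝ) ^ 2 ≤ x ^ 2 := by gcongr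
  have h6 : x ^ 4 ≤ (9424779/2752000000 : ℝ) ^ 4 := by gcongr
  unfold wseq
  rw [← hx]
  constructor
  · linarith [h3.1]
  · linarith [h3.2]

theorem wseq_1 : (1999953085753/1000000000000 : ℝ) ≤ wseq 1 ∧ wseq 1 ≤ 999976542951/500000000000 := by
  rw [show 1 = 0 + 1 from rfl, wseq_succ]
  exact sq_sub_two_pos wseq_0 (by norm_num) (by norm_num) (by norm_num)

theorem wseq_2 : (499953086303/250000000000 : ℝ) ≤ wseq 2 ∧ wseq 2 ≤ 1999812345809/1000000000000 := by
  rw [show 2 = 1 + 1 from rfl, wseq_succ]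
  exact sq_sub_two_pos wseq_1 (by norm_num) (by norm_num) (by norm_num)

theorem wseq_3 : (999624708031/500000000000 : ℝ) ≤ wseq 3 ∧ wseq 3 ≤ 1999249418451/1000000000000 := by
  rw [show 3 = 2 + 1 from rfl, wseq_succ]
  exact sq_sub_two_pos wseq_2 (by norm_num) (by norm_num) (by norm_num)

theorem wseq_4 : (249624778453/125000000000 : ℝ) ≤ wseq 4 ∧ wseq 4 ≤ 1996998237177/1000000000000 := by
  rw [show 4 = 3 + 1 from rfl, wseq_succ]
  exact sq_sub_two_pos wseq_3 (by norm_num) (by norm_num) (by norm_num)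

theorem wseq_5 : (1988001921133/1000000000000 : ℝ) ≤ wseq 5 ∧ wseq 5 ≤ 1988001959289/1000000000000 := by
  rw [show 5 = 4 + 1 from rfl, wseq_succ]
  exact sq_sub_two_pos wseq_4 (by norm_num) (by norm_num) (by norm_num)

theorem wseq_6 : (488037909607/250000000000 : ℝ) ≤ wseq 6 ∧ wseq 6 ≤ 1952151790137/1000000000000 := by
  rw [show 6 = 5 + 1 from rfl, wseq_succ]
  exact sq_sub_two_pos wseq_5 (by norm_num) (by norm_num) (by norm_num)

theorem wseq_7 : (1810896019417/1000000000000 : ℝ) ≤ wseq 7 ∧ wseq 7 ≤ 226362076467/125000000000 := by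
  rw [show 7 = 6 + 1 from rfl, wseq_succ]
  exact sq_sub_two_pos wseq_6 (by norm_num) (by norm_num) (by norm_num)

theorem wseq_8 : (63967219657/50000000000 : ℝ) ≤ wseq 8 ∧ wseq 8 ≤ 1279346538397/1000000000000 := by
  rw [show 8 = 7 + 1 from rfl, wseq_succ]
  exact sq_sub_two_pos wseq_7 (by norm_num) (by norm_num) (by norm_num)

theorem wseq_9 : (-181638961871/500000000000 : ℝ) ≤ wseq 9 ∧ wseq 9 ≤ -363272434691/1000000000000 := by
  rw [show 9 = 8 + 1 from rfl, wseq_succ]
  exact sq_sub_two_pos wseq_8 (by norm_num) (by norm_num) (by norm_num)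

theorem wseq_10 : (-934016569097/500000000000 : ℝ) ≤ wseq 10 ∧ wseq 10 ≤ -1868029150121/1000000000000 := by
  rw [show 10 = 9 + 1 from rfl, wseq_succ]
  exact sq_sub_two_neg wseq_9 (by norm_num) (by norm_num) (by norm_num)

theorem wseq_11 : (1489532905701/1000000000000 : ℝ) ≤ wseq 11 ∧ wseq 11 ≤ 1489547805391/1000000000000 := by
  rw [show 11 = 10 + 1 from rfl, wseq_succ]
  exact sq_sub_two_neg wseq_10 (by norm_num) (by norm_num) (by norm_num)

theorem wseq_12 : (109354138583/500000000000 : ℝ) ≤ wseq 12 ∧ wseq 12 ≤ 109376332273/500000000000 := by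
  rw [show 12 = 11 + 1 from rfl, wseq_succ]
  exact sq_sub_two_pos wseq_11 (by norm_num) (by norm_num) (by norm_num)

theorem wseq_13 : (-3904333379/2000000000 : ℝ) ≤ wseq 13 ∧ wseq 13 ≤ -976073635877/500000000000 := by
  rw [show 13 = 12 + 1 from rfl, wseq_succ]
  exact sq_sub_two_pos wseq_12 (by norm_num) (by norm_num) (by norm_num)

/-- The negated polynomial. -/
def negGap5 : List ℤ := gap5.map (fun a => -a)

theorem ev_neg (v : ℝ) (l : List ℤ) : ev v (l.map (fun a => -a)) = -ev v l := by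
  induction l with
  | nil => simp [ev]
  | cons a l ih =>
    simp only [List.map_cons, ev, ih]
    push_cast
    ring

set_option maxRecDepth 100000 in
theorem negGap5_check_0 : regionCheckScaled negGap5 4096 (-40) (7418) (7416) [(7417, 1)] = true := by
  decide +kernel

theorem gap5_upper_0 : ev (wseq 7) gap5 ≤ 40 := by
  obtain ⟨h1, h2⟩ := wseq_7
  have h := regionCheckScaled_sound (by decide) negGap5_check_0 (v := wseq 7)
    (by push_cast; linarith) (by push_cast; linarith)
  have e : ev (wseq 7) negGap5 = -ev (wseq 7) gap5 := ev_neg _ _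
  rw [e] at h
  push_cast at h
  linarith

set_option maxRecDepth 100000 in
theorem negGap5_check_1 : regionCheckScaled negGap5 4096 (-9) (5241) (5239) [(5240, 1)] = true := by
  decide +kernel

theorem gap5_upper_1 : ev (wseq 8) gap5 ≤ 9 := by
  obtain ⟨h1, h2⟩ := wseq_8
  have h := regionCheckScaled_sound (by decide) negGap5_check_1 (v := wseq 8)
    (by push_cast; linarith) (by push_cast; linarith)
  have e : ev (wseq 8) negGap5 = -ev (wseq 8) gap5 := ev_neg _ _
  rw [e] at h
  push_cast at h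
  linarith

set_option maxRecDepth 100000 in
theorem negGap5_check_2 : regionCheckScaled negGap5 4096 (-26) (-1487) (-1489) [(-1488, 1)] = true := by
  decide +kernel

theorem gap5_upper_2 : ev (wseq 9) gap5 ≤ 26 := by
  obtain ⟨h1, h2⟩ := wseq_9
  have h := regionCheckScaled_sound (by decide) negGap5_check_2 (v := wseq 9)
    (by push_cast; linarith) (by push_cast; linarith)
  have e : ev (wseq 9) negGap5 = -ev (wseq 9) gap5 := ev_neg _ _
  rw [e] at h
  push_cast at h
  linarith

set_option maxRecDepth 100000 in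
theorem negGap5_check_3 : regionCheckScaled negGap5 4096 (-24) (-7650) (-7652) [(-7651, 1)] = true := by
  decide +kernel

theorem gap5_upper_3 : ev (wseq 10) gap5 ≤ 24 := by
  obtain ⟨h1, h2⟩ := wseq_10
  have h := regionCheckScaled_sound (by decide) negGap5_check_3 (v := wseq 10)
    (by push_cast; linarith) (by push_cast; linarith)
  have e : ev (wseq 10) negGap5 = -ev (wseq 10) gap5 := ev_neg _ _
  rw [e] at h
  push_cast at h
  linarith

set_option maxRecDepth 100000 in
theorem negGap5_check_4 : regionCheckScaled negGap5 4096 (-11) (6102) (6100) [(6101, 1)] = true := by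
  decide +kernel

theorem gap5_upper_4 : ev (wseq 11) gap5 ≤ 11 := by
  obtain ⟨h1, h2⟩ := wseq_11
  have h := regionCheckScaled_sound (by decide) negGap5_check_4 (v := wseq 11)
    (by push_cast; linarith) (by push_cast; linarith)
  have e : ev (wseq 11) negGap5 = -ev (wseq 11) gap5 := ev_neg _ _
  rw [e] at h
  push_cast at h
  linarith

set_option maxRecDepth 100000 in
theorem negGap5_check_5 : regionCheckScaled negGap5 4096 (-11) (897) (895) [(896, 1)] = true := by
  decide +kernel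

theorem gap5_upper_5 : ev (wseq 12) gap5 ≤ 11 := by
  obtain ⟨h1, h2⟩ := wseq_12
  have h := regionCheckScaled_sound (by decide) negGap5_check_5 (v := wseq 12)
    (by push_cast; linarith) (by push_cast; linarith)
  have e : ev (wseq 12) negGap5 = -ev (wseq 12) gap5 := ev_neg _ _
  rw [e] at h
  push_cast at h
  linarith

set_option maxRecDepth 100000 in
theorem negGap5_check_6 : regionCheckScaled negGap5 4096 (-23) (-7995) (-7997) [(-7996, 1)] = true := by
  decide +kernel

theorem gap5_upper_6 : ev (wseq 13) gap5 ≤ 23 := by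
  obtain ⟨h1, h2⟩ := wseq_13
  have h := regionCheckScaled_sound (by decide) negGap5_check_6 (v := wseq 13)
    (by push_cast; linarith) (by push_cast; linarith)
  have e : ev (wseq 13) negGap5 = -ev (wseq 13) gap5 := ev_neg _ _
  rw [e] at h
  push_cast at h
  linarith

end Pool.Agent.Lib.MP_38b438_an
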