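import Pool.Agent.Lib.MP_38b438_an.Invariant

set_option autoImplicit false

/-!
General facts on invariant measures of the doubling map: orbits which avoid a member of a cyclic
family of sets leave the family; existence of maximizing measures.
-/

open MeasureTheory Set Topology
open scoped ENNReal

namespace Pool.Agent.Lib.MP_38b438_an

/-- Let `A` be a cyclic family of sets such that a point of `A i` is mapped to `A (i + 1)` or
outside the union. If an invariant probability measure does not charge some `A i`, then it gives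
mass at least `1 / p` to the complement of the union. -/
theorem one_le_card_mul_compl {p : ℕ} [NeZero p] {A : Fin p → Set UnitAddCircle}
    (hA : ∀ i, MeasurableSet (A i))
    (htr : ∀ i θ, θ ∈ A i → doubling θ ∈ ⋃ k, A k → doubling θ ∈ A (i + 1))
    {μ : Measure UnitAddCircle} (hμ : IsInvariantProb μ) {i₀ : Fin p} (h0 : μ (A i₀) = 0) :
    1 ≤ (p : ℝ≥0∞) * μ (⋃ k, A k)ᶜ := by
  obtain ⟨hμ1, hμ2⟩ := hμ
  have hmp : MeasurePreserving doubling μ μ := ⟨measurable_doubling, hμ2⟩
  have hU : MeasurableSet (⋃ k, A k) := MeasurableSet.iUnion hA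
  have hcover : (univ : Set UnitAddCircle) ⊆
      ⋃ t ∈ Finset.range p, (doubling^[t] ⁻¹' (⋃ k, A k)ᶜ ∪ doubling^[t] ⁻¹' (A i₀)) := by
    intro θ _
    by_contra hcon'
    have hcon : ∀ t, t < p → doubling^[t] θ ∈ (⋃ k, A k) ∧ doubling^[t] θ ∉ A i₀ := by
      intro t ht
      constructor
      · by_contra h
        exact hcon' (mem_biUnion (Finset.mem_coe.mpr (Finset.mem_range.mpr ht)) (Or.inl h))
      · intro h
        exact hcon' (mem_biUnion (Finset.mem_coe.mpr (Finset.mem_range.mpr ht)) (Or.inr h))
    have hpos : 0 < p := Nat.pos_of_ne_zero (NeZero.ne p)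
    obtain ⟨i, hi⟩ := mem_iUnion.mp (hcon 0 hpos).1
    have key : ∀ t, t < p → doubling^[t] θ ∈ A (i + Fin.ofNat p t) := by
      intro t
      induction t with
      | zero =>
        intro _
        have : i + Fin.ofNat p 0 = i := by
          have h0 : Fin.ofNat p 0 = 0 := rfl
          rw [h0, add_zero]
        rw [this]
        exact hi
      | succ t ih =>
        intro ht
        have h1 := ih (by omega)
        have h2 := (hcon (t + 1) ht).1
        rw [Function.iterate_succ_apply'] at h2 ⊢
        have h3 := htr _ _ h1 h2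
        have h4 : i + Fin.ofNat p t + 1 = i + Fin.ofNat p (t + 1) := by
          rw [add_assoc]
          congr 1
          apply Fin.ext
          simp [Fin.val_add, Fin.ofNat]
        rwa [h4] at h3
    have h5 := key (i₀ - i).val (i₀ - i).isLt
    have h6 : i + Fin.ofNat p (i₀ - i).val = i₀ := by
      have : Fin.ofNat p (i₀ - i).val = i₀ - i := by
        apply Fin.ext
        simp [Fin.ofNat, Nat.mod_eq_of_lt (i₀ - i).isLt]
      rw [this]
      abel
    rw [h6] at h5
    exact (hcon (i₀ - i).val (i₀ - i).isLt).2 h5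
  have h1 : μ univ ≤ ∑ t ∈ Finset.range p,
      μ (doubling^[t] ⁻¹' (⋃ k, A k)ᶜ ∪ doubling^[t] ⁻¹' (A i₀)) :=
    (measure_mono hcover).trans (measure_biUnion_finset_le _ _)
  rw [measure_univ] at h1
  refine h1.trans ?_
  have h2 : ∀ t ∈ Finset.range p, μ (doubling^[t] ⁻¹' (⋃ k, A k)ᶜ ∪ doubling^[t] ⁻¹' (A i₀)) ≤
      μ (⋃ k, A k)ᶜ := by
    intro t _
    refine (measure_union_le _ _).trans ?_
    rw [(hmp.iterate t).measure_preimage hU.compl.nullMeasurableSet,
      (hmp.iterate t).measure_preimage (hA i₀).nullMeasurableSet, h0, add_zero]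
  refine (Finset.sum_le_sum h2).trans ?_
  rw [Finset.sum_const, Finset.card_range, nsmul_eq_mul]

/-- Every continuous function has a maximizing measure. -/
theorem exists_isMaximizing {g : UnitAddCircle → ℝ} (hg : Continuous g) :
    ∃ μ, IsMaximizing g μ := by
  let D : ProbabilityMeasure UnitAddCircle → ProbabilityMeasure UnitAddCircle :=
    fun μ => μ.map continuous_doubling.measurable.aemeasurable
  have hD : Continuous D := ProbabilityMeasure.continuous_map continuous_doubling
  have hclosed : IsClosed {μ : ProbabilityMeasure UnitAddCircle | D μ = μ} :=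
    isClosed_eq hD continuous_id
  have hcompact : IsCompact {μ : ProbabilityMeasure UnitAddCircle | D μ = μ} :=
    hclosed.isCompact
  have h0 : IsInvariantProb (cycleMeasure 1 (0 : UnitAddCircle)) :=
    isInvariantProb_cycleMeasure one_pos (by simp [doubling])
  have hne : {μ : ProbabilityMeasure UnitAddCircle | D μ = μ}.Nonempty := by
    refine ⟨⟨cycleMeasure 1 (0 : UnitAddCircle), h0.1⟩, ?_⟩
    apply Subtype.ext
    exact h0.2
  let G : BoundedContinuousFunction UnitAddCircle ℝ :=
    BoundedContinuousFunction.mkOfCompact ⟨g, hg⟩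
  have hcont : Continuous fun μ : ProbabilityMeasure UnitAddCircle =>
      ∫ x, G x ∂(μ : Measure UnitAddCircle) := by
    have := ProbabilityMeasure.continuous_integral_boundedContinuousFunction (X := UnitAddCircle) G
    exact this
  obtain ⟨μ, hμ, hmax⟩ := hcompact.exists_isMaxOn hne hcont.continuousOn
  refine ⟨(μ : Measure UnitAddCircle), ⟨μ.2, ?_⟩, ?_⟩
  · have : D μ = μ := hμ
    exact congrArg Subtype.val this
  · intro ν hν
    have h1 : (⟨ν, hν.1⟩ : ProbabilityMeasure UnitAddCircle) ∈
        {μ : ProbabilityMeasure UnitAddCircle | D μ = μ} := by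
      apply Subtype.ext
      exact hν.2
    exact hmax h1

end Pool.Agent.Lib.MP_38b438_an
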