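import Pool.Agent.Lib.MP_38b438_an.Petals
import Pool.Agent.Lib.MP_38b438_an.Robust
import Pool.Agent.Lib.MP_38b438_an.Enclosure5

set_option autoImplicit false

/-!
The arcs around the points of the cycle of `3/43`.
-/

open MeasureTheory Set Topology
open scoped ENNReal

namespace Pool.Agent.Lib.MP_38b438_an

/-- The function `2 sin 2πx` on the circle. -/
noncomputable def sinTwo (x : UnitAddCircle) : ℝ := 2 * (fourier 1 x : ℂ).im

theorem sinTwo_coe (x : ℝ) : sinTwo (x : UnitAddCircle) = 2 * Real.sin (2 * Real.pi * x) := by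
  unfold sinTwo
  rw [fourier_coe_apply]
  have : (2 * (Real.pi : ℂ) * Complex.I * ((1 : ℤ) : ℂ) * (x : ℂ) / ((1 : ℝ) : ℂ)) =
      ((2 * Real.pi * x : ℝ) : ℂ) * Complex.I := by
    push_cast
    ring
  rw [this, Complex.exp_ofReal_mul_I_im]

theorem continuous_sinTwo : Continuous sinTwo := by
  unfold sinTwo
  fun_prop

theorem sinTwo_doubling (x : UnitAddCircle) : sinTwo (doubling x) = sinTwo x * cosTwo x := by
  obtain ⟨t, rfl⟩ := QuotientAddGroup.mk_surjective x
  rw [doubling_coe, sinTwo_coe, sinTwo_coe, cosTwo_coe]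
  have : 2 * Real.pi * (2 * t) = 2 * (2 * Real.pi * t) := by ring
  rw [this, Real.sin_two_mul]
  ring

theorem sinTwo_sq (x : UnitAddCircle) : sinTwo x ^ 2 = 4 - cosTwo x ^ 2 := by
  obtain ⟨t, rfl⟩ := QuotientAddGroup.mk_surjective x
  rw [sinTwo_coe, cosTwo_coe]
  have := Real.sin_sq_add_cos_sq (2 * Real.pi * t)
  linear_combination 4 * this

/-- Lower end points of the intervals around `2 cos (2π 3 2^i / 43)`. -/
noncomputable def lo5 : Fin 7 → ℝ := ![(456 : ℝ) / 256, (305 : ℝ) / 256, (-105 : ℝ) / 256, (-485 : ℝ) / 256, (359 : ℝ) / 256, (35 : ℝ) / 256, (-508 : ℝ) / 256]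

/-- Upper end points of the intervals around `2 cos (2π 3 2^i / 43)`. -/
noncomputable def hi5 : Fin 7 → ℝ := ![(471 : ℝ) / 256, (350 : ℝ) / 256, (-81 : ℝ) / 256, (-471 : ℝ) / 256, (404 : ℝ) / 256, (77 : ℝ) / 256, (-491 : ℝ) / 256]

/-- The side of the arc (upper half circle `1`, lower half circle `-1`). -/
noncomputable def side5 : Fin 14 → ℝ := ![1, 1, 1, -1, 1, 1, 1, -1, -1, -1, 1, -1, -1, -1]

/-- The index modulo 7. -/
def idx5 : Fin 14 → Fin 7 := ![0, 1, 2, 3, 4, 5, 6, 0, 1, 2, 3, 4, 5, 6]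

/-- The arc around `3 2^i / 43`. -/
def arc5 (i : Fin 14) : Set UnitAddCircle :=
  {θ | lo5 (idx5 i) < cosTwo θ ∧ cosTwo θ < hi5 (idx5 i) ∧ 0 < side5 i * sinTwo θ}

theorem isOpen_arc5 (i : Fin 14) : IsOpen (arc5 i) := by
  apply IsOpen.inter (isOpen_lt continuous_const continuous_cosTwo)
  apply IsOpen.inter (isOpen_lt continuous_cosTwo continuous_const)
  exact isOpen_lt continuous_const (continuous_const.mul continuous_sinTwo)

theorem trans_index {v : ℝ} {j k : Fin 7} (h1 : lo5 j < v) (h2 : v < hi5 j)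
    (h3 : lo5 k < v ^ 2 - 2) (h4 : v ^ 2 - 2 < hi5 k) : k = j + 1 := by
  fin_cases j <;> fin_cases k <;> first
    | rfl
    | (exfalso
       simp [lo5, hi5] at h1 h2 h3 h4
       nlinarith)

theorem idx5_succ (i : Fin 14) : idx5 (i + 1) = idx5 i + 1 := by
  fin_cases i <;> rfl

theorem side5_succ {i : Fin 14} {v t : ℝ} (h1 : lo5 (idx5 i) < v) (h2 : v < hi5 (idx5 i))
    (h3 : 0 < side5 i * t) : 0 < side5 (i + 1) * (t * v) := by
  fin_cases i <;> simp [lo5, hi5, idx5, side5, Fin.add_def] at h1 h2 h3 ⊢ <;> nlinarith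

theorem trans_arc5 (i : Fin 14) (θ : UnitAddCircle) (h : θ ∈ arc5 i)
    (hU : doubling θ ∈ ⋃ k, arc5 k) : doubling θ ∈ arc5 (i + 1) := by
  obtain ⟨k, hk⟩ := mem_iUnion.mp hU
  obtain ⟨h1, h2, h3⟩ := h
  obtain ⟨h4, h5, -⟩ := hk
  rw [cosTwo_doubling] at h4 h5
  have h6 := trans_index h1 h2 h4 h5
  refine ⟨?_, ?_, ?_⟩
  · rw [cosTwo_doubling, idx5_succ, ← h6]
    exact h4
  · rw [cosTwo_doubling, idx5_succ, ← h6]
    exact h5
  · rw [sinTwo_doubling]
    exact side5_succ h1 h2 h3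

theorem abs_lt_two_of_mem {v : ℝ} {j : Fin 7} (h1 : lo5 j < v) (h2 : v < hi5 j) :
    -2 < v ∧ v < 2 := by
  fin_cases j <;> simp [lo5, hi5] at h1 h2 <;> constructor <;> linarith

theorem mem_iUnion_arc5 {θ : UnitAddCircle} {j : Fin 7} (h1 : lo5 j < cosTwo θ)
    (h2 : cosTwo θ < hi5 j) : θ ∈ ⋃ k, arc5 k := by
  obtain ⟨h3, h4⟩ := abs_lt_two_of_mem h1 h2
  have h5 : 0 < sinTwo θ ^ 2 := by
    rw [sinTwo_sq]
    nlinarith
  have h6 : sinTwo θ ≠ 0 := by
    intro h
    rw [h] at h5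
    simp at h5
  rcases lt_or_gt_of_ne h6 with h | h
  · have : ∃ i : Fin 14, idx5 i = j ∧ side5 i = -1 := by
      fin_cases j
      · exact ⟨7, rfl, rfl⟩
      · exact ⟨8, rfl, rfl⟩
      · exact ⟨9, rfl, rfl⟩
      · exact ⟨3, rfl, rfl⟩
      · exact ⟨11, rfl, rfl⟩
      · exact ⟨12, rfl, rfl⟩
      · exact ⟨13, rfl, rfl⟩
    obtain ⟨i, hi1, hi2⟩ := this
    refine mem_iUnion.mpr ⟨i, ?_, ?_, ?_⟩
    · rw [hi1]; exact h1
    · rw [hi1]; exact h2
    · rw [hi2]; linarith
  · have : ∃ i : Fin 14, idx5 i = j ∧ side5 i = 1 := by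
      fin_cases j
      · exact ⟨0, rfl, rfl⟩
      · exact ⟨1, rfl, rfl⟩
      · exact ⟨2, rfl, rfl⟩
      · exact ⟨10, rfl, rfl⟩
      · exact ⟨4, rfl, rfl⟩
      · exact ⟨5, rfl, rfl⟩
      · exact ⟨6, rfl, rfl⟩
    obtain ⟨i, hi1, hi2⟩ := this
    refine mem_iUnion.mpr ⟨i, ?_, ?_, ?_⟩
    · rw [hi1]; exact h1
    · rw [hi1]; exact h2
    · rw [hi2]; linarith

/-- The gap function on the circle. -/
noncomputable def gapFun (θ : UnitAddCircle) : ℝ := ev (cosTwo θ) gap5

theorem continuous_ev (l : List ℤ) : Continuous fun v => ev v l := by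
  induction l with
  | nil => exact continuous_const
  | cons a l ih => exact continuous_const.add (continuous_id.mul ih)

theorem continuous_gapFun : Continuous gapFun := (continuous_ev _).comp continuous_cosTwo

theorem gapFun_bounds (θ : UnitAddCircle) :
    0 ≤ gapFun θ ∧ (θ ∉ (⋃ k, arc5 k) → 500 ≤ gapFun θ) := by
  obtain ⟨h1, h2⟩ := cosTwo_mem θ
  have hN : θ ∉ (⋃ k, arc5 k) → ∀ j, ¬ (lo5 j < cosTwo θ ∧ cosTwo θ < hi5 j) :=
    fun h j hj => h (mem_iUnion_arc5 hj.1 hj.2)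
  unfold gapFun
  set v := cosTwo θ with hv
  -- walk through the regions
  have key : (0 ≤ ev v gap5 ∧ ∃ j, lo5 j < v ∧ v < hi5 j) ∨ 500 ≤ ev v gap5 := by
    rcases le_or_gt v ((-508 : ℝ) / 256) with g0 | g0
    · exact Or.inr (region0 (by linarith) (by linarith))
    rcases lt_or_ge v ((-491 : ℝ) / 256) with g1 | g1
    · exact Or.inl ⟨region1 (by linarith) (by linarith), 6, by simpa [lo5] using g0, by simpa [hi5] using g1⟩
    rcases le_or_gt v ((-485 : ℝ) / 256) with g2 | g2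
    · exact Or.inr (region2 (by linarith) (by linarith))
    rcases lt_or_ge v ((-471 : ℝ) / 256) with g3 | g3
    · exact Or.inl ⟨region3 (by linarith) (by linarith), 3, by simpa [lo5] using g2, by simpa [hi5] using g3⟩
    rcases le_or_gt v ((-105 : ℝ) / 256) with g4 | g4
    · exact Or.inr (region4 (by linarith) (by linarith))
    rcases lt_or_ge v ((-81 : ℝ) / 256) with g5 | g5
    · exact Or.inl ⟨region5 (by linarith) (by linarith), 2, by simpa [lo5] using g4, by simpa [hi5] using g5⟩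
    rcases le_or_gt v ((35 : ℝ) / 256) with g6 | g6
    · exact Or.inr (region6 (by linarith) (by linarith))
    rcases lt_or_ge v ((77 : ℝ) / 256) with g7 | g7
    · exact Or.inl ⟨region7 (by linarith) (by linarith), 5, by simpa [lo5] using g6, by simpa [hi5] using g7⟩
    rcases le_or_gt v ((305 : ℝ) / 256) with g8 | g8
    · exact Or.inr (region8 (by linarith) (by linarith))
    rcases lt_or_ge v ((350 : ℝ) / 256) with g9 | g9
    · exact Or.inl ⟨region9 (by linarith) (by linarith), 1, by simpa [lo5] using g8, by simpa [hi5] using g9⟩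
    rcases le_or_gt v ((359 : ℝ) / 256) with g10 | g10
    · exact Or.inr (region10 (by linarith) (by linarith))
    rcases lt_or_ge v ((404 : ℝ) / 256) with g11 | g11
    · exact Or.inl ⟨region11 (by linarith) (by linarith), 4, by simpa [lo5] using g10, by simpa [hi5] using g11⟩
    rcases le_or_gt v ((456 : ℝ) / 256) with g12 | g12
    · exact Or.inr (region12 (by linarith) (by linarith))
    rcases lt_or_ge v ((471 : ℝ) / 256) with g13 | g13
    · exact Or.inl ⟨region13 (by linarith) (by linarith), 0, by simpa [lo5] using g12, by simpa [hi5] using g13⟩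
    exact Or.inr (region14 (by linarith) (by linarith))
  rcases key with ⟨h3, j, h4⟩ | h3
  · exact ⟨h3, fun h => absurd h4 (hN h j)⟩
  · exact ⟨by linarith, fun _ => h3⟩

end Pool.Agent.Lib.MP_38b438_an
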