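import Pool.Agent.Lib.MP_38b438_an.PolyCheck

set_option autoImplicit false

/-!
The sub-action certificate for `f x = -73 cos 2πx - 100 cos 6πx - 66 cos 10πx`, in the variable
`v = 2 cos 2πx`.
-/

namespace Pool.Agent.Lib.MP_38b438_an

/-- The coefficients of the sub-action `H`. -/
def subAct5 : List ℤ :=
  [0, 52729, -12094, -96503, 382813, -520604, -1955967, 3012146, 6369143, -6520672, -10308486, 7273795, 9200505, -4662057, -4917135, 1789677, 1624385, -407243, -326363, 50709, 36659, -2664, -1769]

/-- The coefficients of `50206 - 1000 f - H + H ∘ T`, `T v = v ^ 2 - 2`. -/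
def gap5 : List ℤ :=
  [6780, -1229, -399109, -18497, 8828759, 553604, -83732736, -3012146, 261149482, 6520672, 1187047558, -7273795, -13080689828, 4662057, 52977422257, -1789677, -130035117098, 407243, 219741651319, -50709, -271456573843, 2664, 253744780940, 0, -183306212425, 0, 103633237903, 0, -46134839029, 0, 16180803885, 0, -4448227853, 0, 947307133, 0, -153091265, 0, 18140669, 0, -1486009, 0, 75172, 0, -1769]

/-- The function `f` in the variable `v = 2 cos 2πx`. -/
noncomputable def phi5 (v : ℝ) : ℝ :=
  -(73 / 2 * v + 50 * (v ^ 3 - 3 * v) + 33 * (v ^ 5 - 5 * v ^ 3 + 5 * v))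

theorem gap5_eq (v : ℝ) :
    ev v gap5 = 50206 - 1000 * phi5 v - ev v subAct5 + ev (v ^ 2 - 2) subAct5 := by
  simp only [gap5, subAct5, phi5, ev]
  push_cast
  ring

set_option maxRecDepth 100000 in
theorem region0_check : regionCheckScaled gap5 4096 500 (-8128) (-8192)
    [(-8155, 37)] = true := by
  decide +kernel

set_option maxRecDepth 100000 in
theorem region1_check : regionCheckScaled gap5 4096 0 (-7856) (-8128)
    [(-8097, 31), (-8035, 31), (-7994, 10), (-7967, 17), (-7887, 63)] = true := by
  decide +kernel

set_option maxRecDepth 100000 in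
theorem region2_check : regionCheckScaled gap5 4096 500 (-7760) (-7856)
    [(-7819, 37), (-7772, 10), (-7760, 2)] = true := by
  decide +kernel

set_option maxRecDepth 100000 in
theorem region3_check : regionCheckScaled gap5 4096 0 (-7536) (-7760)
    [(-7723, 37), (-7657, 29), (-7596, 32), (-7440, 124)] = true := by
  decide +kernel

set_option maxRecDepth 100000 in
theorem region4_check : regionCheckScaled gap5 4096 500 (-1680) (-7536)
    [(-7428, 108), (-7063, 257), (-6301, 505), (-5404, 392), (-4925, 87), (-4807, 31), (-4694, 82), (-4527, 85), (-4161, 281), (-3587, 293), (-2991, 303), (-2359, 329), (-1905, 125), (-1727, 53)] = true := by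
  decide +kernel

set_option maxRecDepth 100000 in
theorem region5_check : regionCheckScaled gap5 4096 0 (-1296) (-1680)
    [(-1581, 99), (-1448, 34), (-1242, 172)] = true := by
  decide +kernel

set_option maxRecDepth 100000 in
theorem region6_check : regionCheckScaled gap5 4096 500 (560) (-1296)
    [(-1198, 98), (-1022, 78), (-796, 148), (-427, 221), (137, 343), (573, 93)] = true := by
  decide +kernel

set_option maxRecDepth 100000 in
theorem region7_check : regionCheckScaled gap5 4096 0 (1232) (560)
    [(653, 93), (919, 173), (1307, 215)] = true := by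
  decide +kernel

set_option maxRecDepth 100000 in
theorem region8_check : regionCheckScaled gap5 4096 500 (4880) (1232)
    [(1300, 68), (1462, 94), (1820, 264), (2469, 385), (2945, 91), (3066, 30), (3167, 71), (3309, 71), (3634, 254), (4191, 303), (4690, 196)] = true := by
  decide +kernel

set_option maxRecDepth 100000 in
theorem region9_check : regionCheckScaled gap5 4096 0 (5600) (4880)
    [(4967, 87), (5107, 53), (5226, 66), (5406, 114), (5721, 201)] = true := by
  decide +kernel

set_option maxRecDepth 100000 in
theorem region10_check : regionCheckScaled gap5 4096 500 (5744) (5600)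
    [(5660, 60), (5775, 55)] = true := by
  decide +kernel

set_option maxRecDepth 100000 in
theorem region11_check : regionCheckScaled gap5 4096 0 (6464) (5744)
    [(5864, 120), (6119, 135), (6334, 80), (6579, 165)] = true := by
  decide +kernel

set_option maxRecDepth 100000 in
theorem region12_check : regionCheckScaled gap5 4096 500 (7296) (6464)
    [(6620, 156), (6978, 202), (7261, 81)] = true := by
  decide +kernel

set_option maxRecDepth 100000 in
theorem region13_check : regionCheckScaled gap5 4096 0 (7536) (7296)
    [(7427, 131)] = true := by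
  decide +kernel

set_option maxRecDepth 100000 in
theorem region14_check : regionCheckScaled gap5 4096 500 (8192) (7536)
    [(7683, 147), (7894, 64), (7967, 9), (7991, 15), (8052, 46), (8142, 44), (8198, 12)] = true := by
  decide +kernel

theorem gap5_ne_nil : gap5 ≠ [] := by decide

theorem region0 {v : ℝ} (h1 : (-8192 : ℝ) ≤ 4096 * v) (h2 : 4096 * v ≤ (-8128 : ℝ)) : (500 : ℝ) ≤ ev v gap5 := by
  have := regionCheckScaled_sound gap5_ne_nil region0_check (v := v) (by push_cast; linarith) (by push_cast; linarith)
  simpa using this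

theorem region1 {v : ℝ} (h1 : (-8128 : ℝ) ≤ 4096 * v) (h2 : 4096 * v ≤ (-7856 : ℝ)) : (0 : ℝ) ≤ ev v gap5 := by
  have := regionCheckScaled_sound gap5_ne_nil region1_check (v := v) (by push_cast; linarith) (by push_cast; linarith)
  simpa using this

theorem region2 {v : ℝ} (h1 : (-7856 : ℝ) ≤ 4096 * v) (h2 : 4096 * v ≤ (-7760 : ℝ)) : (500 : ℝ) ≤ ev v gap5 := by
  have := regionCheckScaled_sound gap5_ne_nil region2_check (v := v) (by push_cast; linarith) (by push_cast; linarith)
  simpa using this

theorem region3 {v : ℝ} (h1 : (-7760 : ℝ) ≤ 4096 * v) (h2 : 4096 * v ≤ (-7536 : ℝ)) : (0 : ℝ) ≤ ev v gap5 := by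
  have := regionCheckScaled_sound gap5_ne_nil region3_check (v := v) (by push_cast; linarith) (by push_cast; linarith)
  simpa using this

theorem region4 {v : ℝ} (h1 : (-7536 : ℝ) ≤ 4096 * v) (h2 : 4096 * v ≤ (-1680 : ℝ)) : (500 : ℝ) ≤ ev v gap5 := by
  have := regionCheckScaled_sound gap5_ne_nil region4_check (v := v) (by push_cast; linarith) (by push_cast; linarith)
  simpa using this

theorem region5 {v : ℝ} (h1 : (-1680 : ℝ) ≤ 4096 * v) (h2 : 4096 * v ≤ (-1296 : ℝ)) : (0 : ℝ) ≤ ev v gap5 := by
  have := regionCheckScaled_sound gap5_ne_nil region5_check (v := v) (by push_cast; linarith) (by push_cast; linarith)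
  simpa using this

theorem region6 {v : ℝ} (h1 : (-1296 : ℝ) ≤ 4096 * v) (h2 : 4096 * v ≤ (560 : ℝ)) : (500 : ℝ) ≤ ev v gap5 := by
  have := regionCheckScaled_sound gap5_ne_nil region6_check (v := v) (by push_cast; linarith) (by push_cast; linarith)
  simpa using this

theorem region7 {v : ℝ} (h1 : (560 : ℝ) ≤ 4096 * v) (h2 : 4096 * v ≤ (1232 : ℝ)) : (0 : ℝ) ≤ ev v gap5 := by
  have := regionCheckScaled_sound gap5_ne_nil region7_check (v := v) (by push_cast; linarith) (by push_cast; linarith)
  simpa using this

theorem region8 {v : ℝ} (h1 : (1232 : ℝ) ≤ 4096 * v) (h2 : 4096 * v ≤ (4880 : ℝ)) : (500 : ℝ) ≤ ev v gap5 := by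
  have := regionCheckScaled_sound gap5_ne_nil region8_check (v := v) (by push_cast; linarith) (by push_cast; linarith)
  simpa using this

theorem region9 {v : ℝ} (h1 : (4880 : ℝ) ≤ 4096 * v) (h2 : 4096 * v ≤ (5600 : ℝ)) : (0 : ℝ) ≤ ev v gap5 := by
  have := regionCheckScaled_sound gap5_ne_nil region9_check (v := v) (by push_cast; linarith) (by push_cast; linarith)
  simpa using this

theorem region10 {v : ℝ} (h1 : (5600 : ℝ) ≤ 4096 * v) (h2 : 4096 * v ≤ (5744 : ℝ)) : (500 : ℝ) ≤ ev v gap5 := by
  have := regionCheckScaled_sound gap5_ne_nil region10_check (v := v) (by push_cast; linarith) (by push_cast; linarith)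
  simpa using this

theorem region11 {v : ℝ} (h1 : (5744 : ℝ) ≤ 4096 * v) (h2 : 4096 * v ≤ (6464 : ℝ)) : (0 : ℝ) ≤ ev v gap5 := by
  have := regionCheckScaled_sound gap5_ne_nil region11_check (v := v) (by push_cast; linarith) (by push_cast; linarith)
  simpa using this

theorem region12 {v : ℝ} (h1 : (6464 : ℝ) ≤ 4096 * v) (h2 : 4096 * v ≤ (7296 : ℝ)) : (500 : ℝ) ≤ ev v gap5 := by
  have := regionCheckScaled_sound gap5_ne_nil region12_check (v := v) (by push_cast; linarith) (by push_cast; linarith)
  simpa using this

theorem region13 {v : ℝ} (h1 : (7296 : ℝ) ≤ 4096 * v) (h2 : 4096 * v ≤ (7536 : ℝ)) : (0 : ℝ) ≤ ev v gap5 := by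
  have := regionCheckScaled_sound gap5_ne_nil region13_check (v := v) (by push_cast; linarith) (by push_cast; linarith)
  simpa using this

theorem region14 {v : ℝ} (h1 : (7536 : ℝ) ≤ 4096 * v) (h2 : 4096 * v ≤ (8192 : ℝ)) : (500 : ℝ) ≤ ev v gap5 := by
  have := regionCheckScaled_sound gap5_ne_nil region14_check (v := v) (by push_cast; linarith) (by push_cast; linarith)
  simpa using this

end Pool.Agent.Lib.MP_38b438_an
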