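import Mathlib

set_option autoImplicit false

/-!
The sub-action certificate for `f x = 22 cos 2πx - (19 - √33) cos 6πx`, in the variable
`x = 2 cos 2πt`.
-/

namespace Pool.Agent.Lib.MP_38b438_an

/-- The function `f` in the variable `x = 2 cos 2πt`. -/
noncomputable def phi (s x : ℝ) : ℝ := 11 * x - (19 - s) / 2 * (x ^ 3 - 3 * x)

/-- The sub-action in the variable `x = 2 cos 2πt`. -/
noncomputable def subAct (s x : ℝ) : ℝ :=
  ((-4691/120) + (12461/2640) * s) * x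
    + ((13811/240) + (-13169/1760) * s) * x ^ 2
    + ((28837/480) + (-2295/352) * s) * x ^ 3
    + ((-6483/64) + (129007/10560) * s) * x ^ 4
    + ((-3349/60) + (3737/1320) * s) * x ^ 5
    + ((11957/160) + (-1649/220) * s) * x ^ 6
    + ((2431/80) + (-143/120) * s) * x ^ 7
    + ((-4855/192) + (5849/3520) * s) * x ^ 8
    + ((-1299/160) + (199/480) * s) * x ^ 9 + (571/160) * x ^ 10 + (1/2) * x ^ 11 + (-3/10) * x ^ 12

/-- The quintic whose roots are `2 cos (2π 2^i / 33)`. -/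
noncomputable def quint (s x : ℝ) : ℝ :=
  x ^ 5 - (1 + s) / 2 * x ^ 4 - x ^ 3 + (9 + 3 * s) / 2 * x ^ 2 - (6 + s) * x + 1

/-- The positive cofactor. -/
noncomputable def cofac (s x : ℝ) : ℝ :=
  ((-131072/5) + (23552/5) * s)
    + ((-258176/15) + (520384/165) * s) * x
    + ((362368/5) + (-762368/55) * s) * x ^ 2
    + ((-44384/15) + (-74848/33) * s) * x ^ 3
    + ((-500608/5) + (3227648/165) * s) * x ^ 4
    + ((277696/15) + (1290368/165) * s) * x ^ 5
    + ((727744/5) + (-87744/5) * s) * x ^ 6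
    + ((-177248/5) + (-10912/15) * s) * x ^ 7
    + ((-469056/5) + (21824/5) * s) * x ^ 8
    + ((5184) + (-22528/5) * s) * x ^ 9
    + ((104448/5) + (-2048/5) * s) * x ^ 10
    + ((24064/5) + (10752/5) * s) * x ^ 11
    + ((9216/5) + (3072/5) * s) * x ^ 12 + (3072/5) * x ^ 13

theorem certificate_identity (s x : ℝ) (hs : s ^ 2 = 33) :
    3 + s - phi s x - subAct s x + subAct s (x ^ 2 - 2) =
      (2 - x) * quint s x ^ 2 * cofac s x / 2048 := by
  unfold phi subAct quint cofac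
  linear_combination (((46/5)) * x
    + ((-55229/1320)
    + (-23/5) * s) * x ^ 2
    + ((841/88)
    + (34373/2640) * s) * x ^ 3
    + ((274569/1760)
    + (37309/5280) * s) * x ^ 4
    + ((-33927/220)
    + (-592807/10560) * s) * x ^ 5
    + ((-19537/120)
    + (707329/21120) * s) * x ^ 6
    + ((1123479/7040)
    + (131611/1920) * s) * x ^ 7
    + ((12210073/42240)
    + (-164957/2816) * s) * x ^ 8
    + ((-1226927/5280)
    + (-15359/192) * s) * x ^ 9
    + ((-634761/3520)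
    + (359419/3520) * s) * x ^ 10
    + ((165829/7040)
    + (138331/7040) * s) * x ^ 11
    + ((296841/1760)
    + (-146167/1920) * s) * x ^ 12
    + ((2132543/21120)
    + (537371/21120) * s) * x ^ 13
    + ((-3577847/21120)
    + (464573/21120) * s) * x ^ 14
    + ((-253043/5280)
    + (-3799/192) * s) * x ^ 15
    + ((333373/3840)
    + (-493/768) * s) * x ^ 16
    + ((1763/384)
    + (3973/640) * s) * x ^ 17
    + ((-14943/640)
    + (-33/40) * s) * x ^ 18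
    + ((51/40)
    + (-41/40) * s) * x ^ 19
    + ((273/80)
    + (9/80) * s) * x ^ 20
    + ((-9/40)
    + (3/40) * s) * x ^ 21
    + ((-9/40)) * x ^ 22) * hs


theorem cofac_nonneg_0 (s x : ℝ) (h1 : (57445 / 10000 : ℝ) ≤ s) (h2 : s ≤ 57446 / 10000)
    (hl : (-2 : ℝ) ≤ x) (hu : x ≤ -3/2) : 0 ≤ cofac s x := by
  have ha : 0 ≤ x - (-2) := by linarith
  have hb : 0 ≤ (-3/2) - x := by linarith
  have c0 : 0 ≤ ((-26168262656/5) + (13666091008/15) * s) * (x - (-2)) ^ 0 * ((-3/2) - x) ^ 13 :=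
    mul_nonneg (mul_nonneg (by linarith) (pow_nonneg ha _)) (pow_nonneg hb _)
  have c1 : 0 ≤ ((-274736349184/5) + (315671969792/33) * s) * (x - (-2)) ^ 1 * ((-3/2) - x) ^ 12 :=
    mul_nonneg (mul_nonneg (by linarith) (pow_nonneg ha _)) (pow_nonneg hb _)
  have c2 : 0 ≤ ((-3935897780224/15) + (7537193254912/165) * s) * (x - (-2)) ^ 2 * ((-3/2) - x) ^ 11 :=
    mul_nonneg (mul_nonneg (by linarith) (pow_nonneg ha _)) (pow_nonneg hb _)
  have c3 : 0 ≤ ((-3736435326976/5) + (21465460539392/165) * s) * (x - (-2)) ^ 3 * ((-3/2) - x) ^ 10 :=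
    mul_nonneg (mul_nonneg (by linarith) (pow_nonneg ha _)) (pow_nonneg hb _)
  have c4 : 0 ≤ ((-20978735054848/15) + (40174051459072/165) * s) * (x - (-2)) ^ 4 * ((-3/2) - x) ^ 9 :=
    mul_nonneg (mul_nonneg (by linarith) (pow_nonneg ha _)) (pow_nonneg hb _)
  have c5 : 0 ≤ ((-26722334818304/15) + (51175050346496/165) * s) * (x - (-2)) ^ 5 * ((-3/2) - x) ^ 8 :=
    mul_nonneg (mul_nonneg (by linarith) (pow_nonneg ha _)) (pow_nonneg hb _)
  have c6 : 0 ≤ ((-22951323762688/15) + (14652291956736/55) * s) * (x - (-2)) ^ 6 * ((-3/2) - x) ^ 7 :=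
    mul_nonneg (mul_nonneg (by linarith) (pow_nonneg ha _)) (pow_nonneg hb _)
  have c7 : 0 ≤ ((-2439202514944/3) + (23362269612032/165) * s) * (x - (-2)) ^ 7 * ((-3/2) - x) ^ 6 :=
    mul_nonneg (mul_nonneg (by linarith) (pow_nonneg ha _)) (pow_nonneg hb _)
  have c8 : 0 ≤ ((-2433118517248/15) + (933049874432/33) * s) * (x - (-2)) ^ 8 * ((-3/2) - x) ^ 5 :=
    mul_nonneg (mul_nonneg (by linarith) (pow_nonneg ha _)) (pow_nonneg hb _)
  have c9 : 0 ≤ ((1682691791872/15) + (-3219036946432/165) * s) * (x - (-2)) ^ 9 * ((-3/2) - x) ^ 4 :=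
    mul_nonneg (mul_nonneg (by linarith) (pow_nonneg ha _)) (pow_nonneg hb _)
  have c10 : 0 ≤ ((1633701748736/15) + (-284294057984/15) * s) * (x - (-2)) ^ 10 * ((-3/2) - x) ^ 3 :=
    mul_nonneg (mul_nonneg (by linarith) (pow_nonneg ha _)) (pow_nonneg hb _)
  have c11 : 0 ≤ ((215298635776/5) + (-412181368832/55) * s) * (x - (-2)) ^ 11 * ((-3/2) - x) ^ 2 :=
    mul_nonneg (mul_nonneg (by linarith) (pow_nonneg ha _)) (pow_nonneg hb _)
  have c12 : 0 ≤ ((26408636416/3) + (-252805758976/165) * s) * (x - (-2)) ^ 12 * ((-3/2) - x) ^ 1 :=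
    mul_nonneg (mul_nonneg (by linarith) (pow_nonneg ha _)) (pow_nonneg hb _)
  have c13 : 0 ≤ ((762650624) + (-7300911104/55) * s) * (x - (-2)) ^ 13 * ((-3/2) - x) ^ 0 :=
    mul_nonneg (mul_nonneg (by linarith) (pow_nonneg ha _)) (pow_nonneg hb _)
  have e : cofac s x = ((-26168262656/5) + (13666091008/15) * s) * (x - (-2)) ^ 0 * ((-3/2) - x) ^ 13
      + ((-274736349184/5) + (315671969792/33) * s) * (x - (-2)) ^ 1 * ((-3/2) - x) ^ 12
      + ((-3935897780224/15) + (7537193254912/165) * s) * (x - (-2)) ^ 2 * ((-3/2) - x) ^ 11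
      + ((-3736435326976/5) + (21465460539392/165) * s) * (x - (-2)) ^ 3 * ((-3/2) - x) ^ 10
      + ((-20978735054848/15) + (40174051459072/165) * s) * (x - (-2)) ^ 4 * ((-3/2) - x) ^ 9
      + ((-26722334818304/15) + (51175050346496/165) * s) * (x - (-2)) ^ 5 * ((-3/2) - x) ^ 8
      + ((-22951323762688/15) + (14652291956736/55) * s) * (x - (-2)) ^ 6 * ((-3/2) - x) ^ 7
      + ((-2439202514944/3) + (23362269612032/165) * s) * (x - (-2)) ^ 7 * ((-3/2) - x) ^ 6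
      + ((-2433118517248/15) + (933049874432/33) * s) * (x - (-2)) ^ 8 * ((-3/2) - x) ^ 5
      + ((1682691791872/15) + (-3219036946432/165) * s) * (x - (-2)) ^ 9 * ((-3/2) - x) ^ 4
      + ((1633701748736/15) + (-284294057984/15) * s) * (x - (-2)) ^ 10 * ((-3/2) - x) ^ 3
      + ((215298635776/5) + (-412181368832/55) * s) * (x - (-2)) ^ 11 * ((-3/2) - x) ^ 2
      + ((26408636416/3) + (-252805758976/165) * s) * (x - (-2)) ^ 12 * ((-3/2) - x) ^ 1
      + ((762650624) + (-7300911104/55) * s) * (x - (-2)) ^ 13 * ((-3/2) - x) ^ 0 := by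
    unfold cofac
    ring
  rw [e]
  linarith

theorem cofac_nonneg_1 (s x : ℝ) (h1 : (57445 / 10000 : ℝ) ≤ s) (h2 : s ≤ 57446 / 10000)
    (hl : (-3/2 : ℝ) ≤ x) (hu : x ≤ -1) : 0 ≤ cofac s x := by
  have ha : 0 ≤ x - (-3/2) := by linarith
  have hb : 0 ≤ (-1) - x := by linarith
  have c0 : 0 ≤ ((762650624) + (-7300911104/55) * s) * (x - (-3/2)) ^ 0 * ((-1) - x) ^ 13 :=
    mul_nonneg (mul_nonneg (by linarith) (pow_nonneg ha _)) (pow_nonneg hb _)
  have c1 : 0 ≤ ((33078112256/3) + (-316665307136/165) * s) * (x - (-3/2)) ^ 1 * ((-1) - x) ^ 12 :=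
    mul_nonneg (mul_nonneg (by linarith) (pow_nonneg ha _)) (pow_nonneg hb _)
  have c2 : 0 ≤ ((348688152576/5) + (-667619561472/55) * s) * (x - (-3/2)) ^ 2 * ((-1) - x) ^ 11 :=
    mul_nonneg (mul_nonneg (by linarith) (pow_nonneg ha _)) (pow_nonneg hb _)
  have c3 : 0 ≤ ((778155511808/3) + (-135444893696/3) * s) * (x - (-3/2)) ^ 3 * ((-1) - x) ^ 10 :=
    mul_nonneg (mul_nonneg (by linarith) (pow_nonneg ha _)) (pow_nonneg hb _)
  have c4 : 0 ≤ ((9580603046912/15) + (-6114393636864/55) * s) * (x - (-3/2)) ^ 4 * ((-1) - x) ^ 9 :=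
    mul_nonneg (mul_nonneg (by linarith) (pow_nonneg ha _)) (pow_nonneg hb _)
  have c5 : 0 ≤ ((16590901080064/15) + (-31764457805824/165) * s) * (x - (-3/2)) ^ 5 * ((-1) - x) ^ 8 :=
    mul_nonneg (mul_nonneg (by linarith) (pow_nonneg ha _)) (pow_nonneg hb _)
  have c6 : 0 ≤ ((20875938953216/15) + (-7993459677184/33) * s) * (x - (-3/2)) ^ 6 * ((-1) - x) ^ 7 :=
    mul_nonneg (mul_nonneg (by linarith) (pow_nonneg ha _)) (pow_nonneg hb _)
  have c7 : 0 ≤ ((3877434478592/3) + (-12371916681216/55) * s) * (x - (-3/2)) ^ 7 * ((-1) - x) ^ 6 :=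
    mul_nonneg (mul_nonneg (by linarith) (pow_nonneg ha _)) (pow_nonneg hb _)
  have c8 : 0 ≤ ((13322297581568/15) + (-2318524063744/15) * s) * (x - (-3/2)) ^ 8 * ((-1) - x) ^ 5 :=
    mul_nonneg (mul_nonneg (by linarith) (pow_nonneg ha _)) (pow_nonneg hb _)
  have c9 : 0 ≤ ((6704031711232/15) + (-12833233125376/165) * s) * (x - (-3/2)) ^ 9 * ((-1) - x) ^ 4 :=
    mul_nonneg (mul_nonneg (by linarith) (pow_nonneg ha _)) (pow_nonneg hb _)
  have c10 : 0 ≤ ((801772863488/5) + (-4604011741184/165) * s) * (x - (-3/2)) ^ 10 * ((-1) - x) ^ 3 :=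
    mul_nonneg (mul_nonneg (by linarith) (pow_nonneg ha _)) (pow_nonneg hb _)
  have c11 : 0 ≤ ((116687372288/3) + (-1116617703424/165) * s) * (x - (-3/2)) ^ 11 * ((-1) - x) ^ 2 :=
    mul_nonneg (mul_nonneg (by linarith) (pow_nonneg ha _)) (pow_nonneg hb _)
  have c12 : 0 ≤ ((28611969024/5) + (-2986344448/3) * s) * (x - (-3/2)) ^ 12 * ((-1) - x) ^ 1 :=
    mul_nonneg (mul_nonneg (by linarith) (pow_nonneg ha _)) (pow_nonneg hb _)
  have c13 : 0 ≤ ((385875968) + (-67108864) * s) * (x - (-3/2)) ^ 13 * ((-1) - x) ^ 0 :=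
    mul_nonneg (mul_nonneg (by linarith) (pow_nonneg ha _)) (pow_nonneg hb _)
  have e : cofac s x = ((762650624) + (-7300911104/55) * s) * (x - (-3/2)) ^ 0 * ((-1) - x) ^ 13
      + ((33078112256/3) + (-316665307136/165) * s) * (x - (-3/2)) ^ 1 * ((-1) - x) ^ 12
      + ((348688152576/5) + (-667619561472/55) * s) * (x - (-3/2)) ^ 2 * ((-1) - x) ^ 11
      + ((778155511808/3) + (-135444893696/3) * s) * (x - (-3/2)) ^ 3 * ((-1) - x) ^ 10
      + ((9580603046912/15) + (-6114393636864/55) * s) * (x - (-3/2)) ^ 4 * ((-1) - x) ^ 9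
      + ((16590901080064/15) + (-31764457805824/165) * s) * (x - (-3/2)) ^ 5 * ((-1) - x) ^ 8
      + ((20875938953216/15) + (-7993459677184/33) * s) * (x - (-3/2)) ^ 6 * ((-1) - x) ^ 7
      + ((3877434478592/3) + (-12371916681216/55) * s) * (x - (-3/2)) ^ 7 * ((-1) - x) ^ 6
      + ((13322297581568/15) + (-2318524063744/15) * s) * (x - (-3/2)) ^ 8 * ((-1) - x) ^ 5
      + ((6704031711232/15) + (-12833233125376/165) * s) * (x - (-3/2)) ^ 9 * ((-1) - x) ^ 4
      + ((801772863488/5) + (-4604011741184/165) * s) * (x - (-3/2)) ^ 10 * ((-1) - x) ^ 3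
      + ((116687372288/3) + (-1116617703424/165) * s) * (x - (-3/2)) ^ 11 * ((-1) - x) ^ 2
      + ((28611969024/5) + (-2986344448/3) * s) * (x - (-3/2)) ^ 12 * ((-1) - x) ^ 1
      + ((385875968) + (-67108864) * s) * (x - (-3/2)) ^ 13 * ((-1) - x) ^ 0 := by
    unfold cofac
    ring
  rw [e]
  linarith

theorem cofac_nonneg_2 (s x : ℝ) (h1 : (57445 / 10000 : ℝ) ≤ s) (h2 : s ≤ 57446 / 10000)
    (hl : (-1 : ℝ) ≤ x) (hu : x ≤ 0) : 0 ≤ cofac s x := by
  have ha : 0 ≤ x - (-1) := by linarith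
  have hb : 0 ≤ (0) - x := by linarith
  have c0 : 0 ≤ ((47104) + (-8192) * s) * (x - (-1)) ^ 0 * ((0) - x) ^ 13 :=
    mul_nonneg (mul_nonneg (by linarith) (pow_nonneg ha _)) (pow_nonneg hb _)
  have c1 : 0 ≤ ((2199936/5) + (-229376/3) * s) * (x - (-1)) ^ 1 * ((0) - x) ^ 12 :=
    mul_nonneg (mul_nonneg (by linarith) (pow_nonneg ha _)) (pow_nonneg hb _)
  have c2 : 0 ≤ ((26469248/15) + (-50508608/165) * s) * (x - (-1)) ^ 2 * ((0) - x) ^ 11 :=
    mul_nonneg (mul_nonneg (by linarith) (pow_nonneg ha _)) (pow_nonneg hb _)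
  have c3 : 0 ≤ ((20103872/5) + (-114637888/165) * s) * (x - (-1)) ^ 3 * ((0) - x) ^ 10 :=
    mul_nonneg (mul_nonneg (by linarith) (pow_nonneg ha _)) (pow_nonneg hb _)
  have c4 : 0 ≤ ((83319776/15) + (-156876128/165) * s) * (x - (-1)) ^ 4 * ((0) - x) ^ 9 :=
    mul_nonneg (mul_nonneg (by linarith) (pow_nonneg ha _)) (pow_nonneg hb _)
  have c5 : 0 ≤ ((54683584/15) + (-99143872/165) * s) * (x - (-1)) ^ 5 * ((0) - x) ^ 8 :=
    mul_nonneg (mul_nonneg (by linarith) (pow_nonneg ha _)) (pow_nonneg hb _)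
  have c6 : 0 ≤ ((-8551136/3) + (29886496/55) * s) * (x - (-1)) ^ 6 * ((0) - x) ^ 7 :=
    mul_nonneg (mul_nonneg (by linarith) (pow_nonneg ha _)) (pow_nonneg hb _)
  have c7 : 0 ≤ ((-160316864/15) + (62939968/33) * s) * (x - (-1)) ^ 7 * ((0) - x) ^ 6 :=
    mul_nonneg (mul_nonneg (by linarith) (pow_nonneg ha _)) (pow_nonneg hb _)
  have c8 : 0 ≤ ((-210696544/15) + (409914016/165) * s) * (x - (-1)) ^ 8 * ((0) - x) ^ 5 :=
    mul_nonneg (mul_nonneg (by linarith) (pow_nonneg ha _)) (pow_nonneg hb _)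
  have c9 : 0 ≤ ((-165617984/15) + (107468096/55) * s) * (x - (-1)) ^ 9 * ((0) - x) ^ 4 :=
    mul_nonneg (mul_nonneg (by linarith) (pow_nonneg ha _)) (pow_nonneg hb _)
  have c10 : 0 ≤ ((-83417632/15) + (163154528/165) * s) * (x - (-1)) ^ 10 * ((0) - x) ^ 3 :=
    mul_nonneg (mul_nonneg (by linarith) (pow_nonneg ha _)) (pow_nonneg hb _)
  have c11 : 0 ≤ ((-8828544/5) + (17363712/55) * s) * (x - (-1)) ^ 11 * ((0) - x) ^ 2 :=
    mul_nonneg (mul_nonneg (by linarith) (pow_nonneg ha _)) (pow_nonneg hb _)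
  have c12 : 0 ≤ ((-4853632/15) + (9583424/165) * s) * (x - (-1)) ^ 12 * ((0) - x) ^ 1 :=
    mul_nonneg (mul_nonneg (by linarith) (pow_nonneg ha _)) (pow_nonneg hb _)
  have c13 : 0 ≤ ((-131072/5) + (23552/5) * s) * (x - (-1)) ^ 13 * ((0) - x) ^ 0 :=
    mul_nonneg (mul_nonneg (by linarith) (pow_nonneg ha _)) (pow_nonneg hb _)
  have e : cofac s x = ((47104) + (-8192) * s) * (x - (-1)) ^ 0 * ((0) - x) ^ 13
      + ((2199936/5) + (-229376/3) * s) * (x - (-1)) ^ 1 * ((0) - x) ^ 12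
      + ((26469248/15) + (-50508608/165) * s) * (x - (-1)) ^ 2 * ((0) - x) ^ 11
      + ((20103872/5) + (-114637888/165) * s) * (x - (-1)) ^ 3 * ((0) - x) ^ 10
      + ((83319776/15) + (-156876128/165) * s) * (x - (-1)) ^ 4 * ((0) - x) ^ 9
      + ((54683584/15) + (-99143872/165) * s) * (x - (-1)) ^ 5 * ((0) - x) ^ 8
      + ((-8551136/3) + (29886496/55) * s) * (x - (-1)) ^ 6 * ((0) - x) ^ 7
      + ((-160316864/15) + (62939968/33) * s) * (x - (-1)) ^ 7 * ((0) - x) ^ 6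
      + ((-210696544/15) + (409914016/165) * s) * (x - (-1)) ^ 8 * ((0) - x) ^ 5
      + ((-165617984/15) + (107468096/55) * s) * (x - (-1)) ^ 9 * ((0) - x) ^ 4
      + ((-83417632/15) + (163154528/165) * s) * (x - (-1)) ^ 10 * ((0) - x) ^ 3
      + ((-8828544/5) + (17363712/55) * s) * (x - (-1)) ^ 11 * ((0) - x) ^ 2
      + ((-4853632/15) + (9583424/165) * s) * (x - (-1)) ^ 12 * ((0) - x) ^ 1
      + ((-131072/5) + (23552/5) * s) * (x - (-1)) ^ 13 * ((0) - x) ^ 0 := by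
    unfold cofac
    ring
  rw [e]
  linarith

theorem cofac_nonneg_3 (s x : ℝ) (h1 : (57445 / 10000 : ℝ) ≤ s) (h2 : s ≤ 57446 / 10000)
    (hl : (0 : ℝ) ≤ x) (hu : x ≤ 1/4) : 0 ≤ cofac s x := by
  have ha : 0 ≤ x - (0) := by linarith
  have hb : 0 ≤ (1/4) - x := by linarith
  have c0 : 0 ≤ ((-8796093022208/5) + (1580547964928/5) * s) * (x - (0)) ^ 0 * ((1/4) - x) ^ 13 :=
    mul_nonneg (mul_nonneg (by linarith) (pow_nonneg ha _)) (pow_nonneg hb _)
  have c1 : 0 ≤ ((-347379102384128/15) + (686785671725056/165) * s) * (x - (0)) ^ 1 * ((1/4) - x) ^ 12 :=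
    mul_nonneg (mul_nonneg (by linarith) (pow_nonneg ha _)) (pow_nonneg hb _)
  have c2 : 0 ≤ ((-701901272252416/5) + (126166811803648/5) * s) * (x - (0)) ^ 2 * ((1/4) - x) ^ 11 :=
    mul_nonneg (mul_nonneg (by linarith) (pow_nonneg ha _)) (pow_nonneg hb _)
  have c3 : 0 ≤ ((-7782815580028928/15) + (15387517624778752/165) * s) * (x - (0)) ^ 3 * ((1/4) - x) ^ 10 :=
    mul_nonneg (mul_nonneg (by linarith) (pow_nonneg ha _)) (pow_nonneg hb _)
  have c4 : 0 ≤ ((-19570622564663296/15) + (38683077479759872/165) * s) * (x - (0)) ^ 4 * ((1/4) - x) ^ 9 :=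
    mul_nonneg (mul_nonneg (by linarith) (pow_nonneg ha _)) (pow_nonneg hb _)
  have c5 : 0 ≤ ((-35359073025130496/15) + (69856324153769984/165) * s) * (x - (0)) ^ 5 * ((1/4) - x) ^ 8 :=
    mul_nonneg (mul_nonneg (by linarith) (pow_nonneg ha _)) (pow_nonneg hb _)
  have c6 : 0 ≤ ((-47227708386574336/15) + (18647254559621120/33) * s) * (x - (0)) ^ 6 * ((1/4) - x) ^ 7 :=
    mul_nonneg (mul_nonneg (by linarith) (pow_nonneg ha _)) (pow_nonneg hb _)
  have c7 : 0 ≤ ((-9444019884654592/3) + (31043054042742784/55) * s) * (x - (0)) ^ 7 * ((1/4) - x) ^ 6 :=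
    mul_nonneg (mul_nonneg (by linarith) (pow_nonneg ha _)) (pow_nonneg hb _)
  have c8 : 0 ≤ ((-35345264877174784/15) + (69621662981619712/165) * s) * (x - (0)) ^ 8 * ((1/4) - x) ^ 5 :=
    mul_nonneg (mul_nonneg (by linarith) (pow_nonneg ha _)) (pow_nonneg hb _)
  have c9 : 0 ≤ ((-19563909511725056/15) + (38477503480659968/165) * s) * (x - (0)) ^ 9 * ((1/4) - x) ^ 4 :=
    mul_nonneg (mul_nonneg (by linarith) (pow_nonneg ha _)) (pow_nonneg hb _)
  have c10 : 0 ≤ ((-2594690905341952/5) + (15282183833387008/165) * s) * (x - (0)) ^ 10 * ((1/4) - x) ^ 3 :=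
    mul_nonneg (mul_nonneg (by linarith) (pow_nonneg ha _)) (pow_nonneg hb _)
  have c11 : 0 ≤ ((-2108436071702528/15) + (4131116677111808/165) * s) * (x - (0)) ^ 11 * ((1/4) - x) ^ 2 :=
    mul_nonneg (mul_nonneg (by linarith) (pow_nonneg ha _)) (pow_nonneg hb _)
  have c12 : 0 ≤ ((-116167341879296/5) + (136267302154240/33) * s) * (x - (0)) ^ 12 * ((1/4) - x) ^ 1 :=
    mul_nonneg (mul_nonneg (by linarith) (pow_nonneg ha _)) (pow_nonneg hb _)
  have c13 : 0 ≤ ((-1769996776448) + (10357347946496/33) * s) * (x - (0)) ^ 13 * ((1/4) - x) ^ 0 :=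
    mul_nonneg (mul_nonneg (by linarith) (pow_nonneg ha _)) (pow_nonneg hb _)
  have e : cofac s x = ((-8796093022208/5) + (1580547964928/5) * s) * (x - (0)) ^ 0 * ((1/4) - x) ^ 13
      + ((-347379102384128/15) + (686785671725056/165) * s) * (x - (0)) ^ 1 * ((1/4) - x) ^ 12
      + ((-701901272252416/5) + (126166811803648/5) * s) * (x - (0)) ^ 2 * ((1/4) - x) ^ 11
      + ((-7782815580028928/15) + (15387517624778752/165) * s) * (x - (0)) ^ 3 * ((1/4) - x) ^ 10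
      + ((-19570622564663296/15) + (38683077479759872/165) * s) * (x - (0)) ^ 4 * ((1/4) - x) ^ 9
      + ((-35359073025130496/15) + (69856324153769984/165) * s) * (x - (0)) ^ 5 * ((1/4) - x) ^ 8
      + ((-47227708386574336/15) + (18647254559621120/33) * s) * (x - (0)) ^ 6 * ((1/4) - x) ^ 7
      + ((-9444019884654592/3) + (31043054042742784/55) * s) * (x - (0)) ^ 7 * ((1/4) - x) ^ 6
      + ((-35345264877174784/15) + (69621662981619712/165) * s) * (x - (0)) ^ 8 * ((1/4) - x) ^ 5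
      + ((-19563909511725056/15) + (38477503480659968/165) * s) * (x - (0)) ^ 9 * ((1/4) - x) ^ 4
      + ((-2594690905341952/5) + (15282183833387008/165) * s) * (x - (0)) ^ 10 * ((1/4) - x) ^ 3
      + ((-2108436071702528/15) + (4131116677111808/165) * s) * (x - (0)) ^ 11 * ((1/4) - x) ^ 2
      + ((-116167341879296/5) + (136267302154240/33) * s) * (x - (0)) ^ 12 * ((1/4) - x) ^ 1
      + ((-1769996776448) + (10357347946496/33) * s) * (x - (0)) ^ 13 * ((1/4) - x) ^ 0 := by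
    unfold cofac
    ring
  rw [e]
  linarith

theorem cofac_nonneg_4 (s x : ℝ) (h1 : (57445 / 10000 : ℝ) ≤ s) (h2 : s ≤ 57446 / 10000)
    (hl : (1/4 : ℝ) ≤ x) (hu : x ≤ 1/2) : 0 ≤ cofac s x := by
  have ha : 0 ≤ x - (1/4) := by linarith
  have hb : 0 ≤ (1/2) - x := by linarith
  have c0 : 0 ≤ ((-1769996776448) + (10357347946496/33) * s) * (x - (1/4)) ^ 0 * ((1/2) - x) ^ 13 :=
    mul_nonneg (mul_nonneg (by linarith) (pow_nonneg ha _)) (pow_nonneg hb _)
  have c1 : 0 ≤ ((-113932239058944/5) + (4031022559232) * s) * (x - (1/4)) ^ 1 * ((1/2) - x) ^ 12 :=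
    mul_nonneg (mul_nonneg (by linarith) (pow_nonneg ha _)) (pow_nonneg hb _)
  have c2 : 0 ≤ ((-2027972370169856/15) + (3936503215136768/165) * s) * (x - (1/4)) ^ 2 * ((1/2) - x) ^ 11 :=
    mul_nonneg (mul_nonneg (by linarith) (pow_nonneg ha _)) (pow_nonneg hb _)
  have c3 : 0 ≤ ((-7343275460722688/15) + (4739201575796736/55) * s) * (x - (1/4)) ^ 3 * ((1/2) - x) ^ 10 :=
    mul_nonneg (mul_nonneg (by linarith) (pow_nonneg ha _)) (pow_nonneg hb _)
  have c4 : 0 ≤ ((-18106272681558016/15) + (34967539359776768/165) * s) * (x - (1/4)) ^ 4 * ((1/2) - x) ^ 9 :=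
    mul_nonneg (mul_nonneg (by linarith) (pow_nonneg ha _)) (pow_nonneg hb _)
  have c5 : 0 ≤ ((-32104797663002624/15) + (61854247282737152/165) * s) * (x - (1/4)) ^ 5 * ((1/2) - x) ^ 8 :=
    mul_nonneg (mul_nonneg (by linarith) (pow_nonneg ha _)) (pow_nonneg hb _)
  have c6 : 0 ≤ ((-42118034164154368/15) + (80977006130757632/165) * s) * (x - (1/4)) ^ 6 * ((1/2) - x) ^ 7 :=
    mul_nonneg (mul_nonneg (by linarith) (pow_nonneg ha _)) (pow_nonneg hb _)
  have c7 : 0 ≤ ((-41393758554816512/15) + (79457264093888512/165) * s) * (x - (1/4)) ^ 7 * ((1/2) - x) ^ 6 :=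
    mul_nonneg (mul_nonneg (by linarith) (pow_nonneg ha _)) (pow_nonneg hb _)
  have c8 : 0 ≤ ((-6095507710803968/3) + (58450744200134656/165) * s) * (x - (1/4)) ^ 8 * ((1/2) - x) ^ 5 :=
    mul_nonneg (mul_nonneg (by linarith) (pow_nonneg ha _)) (pow_nonneg hb _)
  have c9 : 0 ≤ ((-16603907173646336/15) + (31845443503652864/165) * s) * (x - (1/4)) ^ 9 * ((1/2) - x) ^ 4 :=
    mul_nonneg (mul_nonneg (by linarith) (pow_nonneg ha _)) (pow_nonneg hb _)
  have c10 : 0 ≤ ((-6505588156530688/15) + (2498717827465216/33) * s) * (x - (1/4)) ^ 10 * ((1/2) - x) ^ 3 :=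
    mul_nonneg (mul_nonneg (by linarith) (pow_nonneg ha _)) (pow_nonneg hb _)
  have c11 : 0 ≤ ((-1735925583314944/15) + (3343202903916544/165) * s) * (x - (1/4)) ^ 11 * ((1/2) - x) ^ 2 :=
    mul_nonneg (mul_nonneg (by linarith) (pow_nonneg ha _)) (pow_nonneg hb _)
  have c12 : 0 ≤ ((-18848782745600) + (547066040287232/165) * s) * (x - (1/4)) ^ 12 * ((1/2) - x) ^ 1 :=
    mul_nonneg (mul_nonneg (by linarith) (pow_nonneg ha _)) (pow_nonneg hb _)
  have c13 : 0 ≤ ((-7075488858112/5) + (13784529764352/55) * s) * (x - (1/4)) ^ 13 * ((1/2) - x) ^ 0 :=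
    mul_nonneg (mul_nonneg (by linarith) (pow_nonneg ha _)) (pow_nonneg hb _)
  have e : cofac s x = ((-1769996776448) + (10357347946496/33) * s) * (x - (1/4)) ^ 0 * ((1/2) - x) ^ 13
      + ((-113932239058944/5) + (4031022559232) * s) * (x - (1/4)) ^ 1 * ((1/2) - x) ^ 12
      + ((-2027972370169856/15) + (3936503215136768/165) * s) * (x - (1/4)) ^ 2 * ((1/2) - x) ^ 11
      + ((-7343275460722688/15) + (4739201575796736/55) * s) * (x - (1/4)) ^ 3 * ((1/2) - x) ^ 10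
      + ((-18106272681558016/15) + (34967539359776768/165) * s) * (x - (1/4)) ^ 4 * ((1/2) - x) ^ 9
      + ((-32104797663002624/15) + (61854247282737152/165) * s) * (x - (1/4)) ^ 5 * ((1/2) - x) ^ 8
      + ((-42118034164154368/15) + (80977006130757632/165) * s) * (x - (1/4)) ^ 6 * ((1/2) - x) ^ 7
      + ((-41393758554816512/15) + (79457264093888512/165) * s) * (x - (1/4)) ^ 7 * ((1/2) - x) ^ 6
      + ((-6095507710803968/3) + (58450744200134656/165) * s) * (x - (1/4)) ^ 8 * ((1/2) - x) ^ 5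
      + ((-16603907173646336/15) + (31845443503652864/165) * s) * (x - (1/4)) ^ 9 * ((1/2) - x) ^ 4
      + ((-6505588156530688/15) + (2498717827465216/33) * s) * (x - (1/4)) ^ 10 * ((1/2) - x) ^ 3
      + ((-1735925583314944/15) + (3343202903916544/165) * s) * (x - (1/4)) ^ 11 * ((1/2) - x) ^ 2
      + ((-18848782745600) + (547066040287232/165) * s) * (x - (1/4)) ^ 12 * ((1/2) - x) ^ 1
      + ((-7075488858112/5) + (13784529764352/55) * s) * (x - (1/4)) ^ 13 * ((1/2) - x) ^ 0 := by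
    unfold cofac
    ring
  rw [e]
  linarith

theorem cofac_nonneg_5 (s x : ℝ) (h1 : (57445 / 10000 : ℝ) ≤ s) (h2 : s ≤ 57446 / 10000)
    (hl : (1/2 : ℝ) ≤ x) (hu : x ≤ 1) : 0 ≤ cofac s x := by
  have ha : 0 ≤ x - (1/2) := by linarith
  have hb : 0 ≤ (1) - x := by linarith
  have c0 : 0 ≤ ((-863707136/5) + (1682681856/55) * s) * (x - (1/2)) ^ 0 * ((1) - x) ^ 13 :=
    mul_nonneg (mul_nonneg (by linarith) (pow_nonneg ha _)) (pow_nonneg hb _)
  have c1 : 0 ≤ ((-10675810304/5) + (12662546432/33) * s) * (x - (1/2)) ^ 1 * ((1) - x) ^ 12 :=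
    mul_nonneg (mul_nonneg (by linarith) (pow_nonneg ha _)) (pow_nonneg hb _)
  have c2 : 0 ≤ ((-181640198144/15) + (367953661952/165) * s) * (x - (1/2)) ^ 2 * ((1) - x) ^ 11 :=
    mul_nonneg (mul_nonneg (by linarith) (pow_nonneg ha _)) (pow_nonneg hb _)
  have c3 : 0 ≤ ((-625358655488/15) + (1314945175552/165) * s) * (x - (1/2)) ^ 3 * ((1) - x) ^ 10 :=
    mul_nonneg (mul_nonneg (by linarith) (pow_nonneg ha _)) (pow_nonneg hb _)
  have c4 : 0 ≤ ((-1456511054848/15) + (3229494403072/165) * s) * (x - (1/2)) ^ 4 * ((1) - x) ^ 9 :=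
    mul_nonneg (mul_nonneg (by linarith) (pow_nonneg ha _)) (pow_nonneg hb _)
  have c5 : 0 ≤ ((-2419798605824/15) + (5760720275456/165) * s) * (x - (1/2)) ^ 5 * ((1) - x) ^ 8 :=
    mul_nonneg (mul_nonneg (by linarith) (pow_nonneg ha _)) (pow_nonneg hb _)
  have c6 : 0 ≤ ((-2945513433088/15) + (7673865218048/165) * s) * (x - (1/2)) ^ 6 * ((1) - x) ^ 7 :=
    mul_nonneg (mul_nonneg (by linarith) (pow_nonneg ha _)) (pow_nonneg hb _)
  have c7 : 0 ≤ ((-531305500672/3) + (701119803392/15) * s) * (x - (1/2)) ^ 7 * ((1) - x) ^ 6 :=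
    mul_nonneg (mul_nonneg (by linarith) (pow_nonneg ha _)) (pow_nonneg hb _)
  have c8 : 0 ≤ ((-1775107760128/15) + (1165089185792/33) * s) * (x - (1/2)) ^ 8 * ((1) - x) ^ 5 :=
    mul_nonneg (mul_nonneg (by linarith) (pow_nonneg ha _)) (pow_nonneg hb _)
  have c9 : 0 ≤ ((-870047203328/15) + (3249497325568/165) * s) * (x - (1/2)) ^ 9 * ((1) - x) ^ 4 :=
    mul_nonneg (mul_nonneg (by linarith) (pow_nonneg ha _)) (pow_nonneg hb _)
  have c10 : 0 ≤ ((-305852514304/15) + (431188344832/55) * s) * (x - (1/2)) ^ 10 * ((1) - x) ^ 3 :=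
    mul_nonneg (mul_nonneg (by linarith) (pow_nonneg ha _)) (pow_nonneg hb _)
  have c11 : 0 ≤ ((-73625239552/15) + (346232848384/165) * s) * (x - (1/2)) ^ 11 * ((1) - x) ^ 2 :=
    mul_nonneg (mul_nonneg (by linarith) (pow_nonneg ha _)) (pow_nonneg hb _)
  have c12 : 0 ≤ ((-726138880) + (18594398208/55) * s) * (x - (1/2)) ^ 12 * ((1) - x) ^ 1 :=
    mul_nonneg (mul_nonneg (by linarith) (pow_nonneg ha _)) (pow_nonneg hb _)
  have c13 : 0 ≤ ((-48234496) + (375390208/15) * s) * (x - (1/2)) ^ 13 * ((1) - x) ^ 0 :=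
    mul_nonneg (mul_nonneg (by linarith) (pow_nonneg ha _)) (pow_nonneg hb _)
  have e : cofac s x = ((-863707136/5) + (1682681856/55) * s) * (x - (1/2)) ^ 0 * ((1) - x) ^ 13
      + ((-10675810304/5) + (12662546432/33) * s) * (x - (1/2)) ^ 1 * ((1) - x) ^ 12
      + ((-181640198144/15) + (367953661952/165) * s) * (x - (1/2)) ^ 2 * ((1) - x) ^ 11
      + ((-625358655488/15) + (1314945175552/165) * s) * (x - (1/2)) ^ 3 * ((1) - x) ^ 10
      + ((-1456511054848/15) + (3229494403072/165) * s) * (x - (1/2)) ^ 4 * ((1) - x) ^ 9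
      + ((-2419798605824/15) + (5760720275456/165) * s) * (x - (1/2)) ^ 5 * ((1) - x) ^ 8
      + ((-2945513433088/15) + (7673865218048/165) * s) * (x - (1/2)) ^ 6 * ((1) - x) ^ 7
      + ((-531305500672/3) + (701119803392/15) * s) * (x - (1/2)) ^ 7 * ((1) - x) ^ 6
      + ((-1775107760128/15) + (1165089185792/33) * s) * (x - (1/2)) ^ 8 * ((1) - x) ^ 5
      + ((-870047203328/15) + (3249497325568/165) * s) * (x - (1/2)) ^ 9 * ((1) - x) ^ 4
      + ((-305852514304/15) + (431188344832/55) * s) * (x - (1/2)) ^ 10 * ((1) - x) ^ 3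
      + ((-73625239552/15) + (346232848384/165) * s) * (x - (1/2)) ^ 11 * ((1) - x) ^ 2
      + ((-726138880) + (18594398208/55) * s) * (x - (1/2)) ^ 12 * ((1) - x) ^ 1
      + ((-48234496) + (375390208/15) * s) * (x - (1/2)) ^ 13 * ((1) - x) ^ 0 := by
    unfold cofac
    ring
  rw [e]
  linarith

theorem cofac_nonneg_6 (s x : ℝ) (h1 : (57445 / 10000 : ℝ) ≤ s) (h2 : s ≤ 57446 / 10000)
    (hl : (1 : ℝ) ≤ x) (hu : x ≤ 2) : 0 ≤ cofac s x := by
  have ha : 0 ≤ x - (1) := by linarith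
  have hb : 0 ≤ (2) - x := by linarith
  have c0 : 0 ≤ ((-5888) + (45824/15) * s) * (x - (1)) ^ 0 * ((2) - x) ^ 13 :=
    mul_nonneg (mul_nonneg (by linarith) (pow_nonneg ha _)) (pow_nonneg hb _)
  have c1 : 0 ≤ ((-52352) + (2013184/55) * s) * (x - (1)) ^ 1 * ((2) - x) ^ 12 :=
    mul_nonneg (mul_nonneg (by linarith) (pow_nonneg ha _)) (pow_nonneg hb _)
  have c2 : 0 ≤ ((-2219264/15) + (32629952/165) * s) * (x - (1)) ^ 2 * ((2) - x) ^ 11 :=
    mul_nonneg (mul_nonneg (by linarith) (pow_nonneg ha _)) (pow_nonneg hb _)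
  have c3 : 0 ≤ ((9897664/15) + (39476544/55) * s) * (x - (1)) ^ 3 * ((2) - x) ^ 10 :=
    mul_nonneg (mul_nonneg (by linarith) (pow_nonneg ha _)) (pow_nonneg hb _)
  have c4 : 0 ≤ ((146644256/15) + (429809504/165) * s) * (x - (1)) ^ 4 * ((2) - x) ^ 9 :=
    mul_nonneg (mul_nonneg (by linarith) (pow_nonneg ha _)) (pow_nonneg hb _)
  have c5 : 0 ≤ ((172510208/3) + (1737285632/165) * s) * (x - (1)) ^ 5 * ((2) - x) ^ 8 :=
    mul_nonneg (mul_nonneg (by linarith) (pow_nonneg ha _)) (pow_nonneg hb _)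
  have c6 : 0 ≤ ((3177015776/15) + (5984551712/165) * s) * (x - (1)) ^ 6 * ((2) - x) ^ 7 :=
    mul_nonneg (mul_nonneg (by linarith) (pow_nonneg ha _)) (pow_nonneg hb _)
  have c7 : 0 ≤ ((7966177792/15) + (15009252736/165) * s) * (x - (1)) ^ 7 * ((2) - x) ^ 6 :=
    mul_nonneg (mul_nonneg (by linarith) (pow_nonneg ha _)) (pow_nonneg hb _)
  have c8 : 0 ≤ ((2793501280/3) + (26515466464/165) * s) * (x - (1)) ^ 8 * ((2) - x) ^ 5 :=
    mul_nonneg (mul_nonneg (by linarith) (pow_nonneg ha _)) (pow_nonneg hb _)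
  have c9 : 0 ≤ ((17173572736/15) + (6550548352/33) * s) * (x - (1)) ^ 9 * ((2) - x) ^ 4 :=
    mul_nonneg (mul_nonneg (by linarith) (pow_nonneg ha _)) (pow_nonneg hb _)
  have c10 : 0 ≤ ((2908787104/3) + (5557744672/33) * s) * (x - (1)) ^ 10 * ((2) - x) ^ 3 :=
    mul_nonneg (mul_nonneg (by linarith) (pow_nonneg ha _)) (pow_nonneg hb _)
  have c11 : 0 ≤ ((8096470592/15) + (15477915328/165) * s) * (x - (1)) ^ 11 * ((2) - x) ^ 2 :=
    mul_nonneg (mul_nonneg (by linarith) (pow_nonneg ha _)) (pow_nonneg hb _)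
  have c12 : 0 ≤ ((890573568/5) + (5108339264/165) * s) * (x - (1)) ^ 12 * ((2) - x) ^ 1 :=
    mul_nonneg (mul_nonneg (by linarith) (pow_nonneg ha _)) (pow_nonneg hb _)
  have c13 : 0 ≤ ((132213248/5) + (50557312/11) * s) * (x - (1)) ^ 13 * ((2) - x) ^ 0 :=
    mul_nonneg (mul_nonneg (by linarith) (pow_nonneg ha _)) (pow_nonneg hb _)
  have e : cofac s x = ((-5888) + (45824/15) * s) * (x - (1)) ^ 0 * ((2) - x) ^ 13
      + ((-52352) + (2013184/55) * s) * (x - (1)) ^ 1 * ((2) - x) ^ 12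
      + ((-2219264/15) + (32629952/165) * s) * (x - (1)) ^ 2 * ((2) - x) ^ 11
      + ((9897664/15) + (39476544/55) * s) * (x - (1)) ^ 3 * ((2) - x) ^ 10
      + ((146644256/15) + (429809504/165) * s) * (x - (1)) ^ 4 * ((2) - x) ^ 9
      + ((172510208/3) + (1737285632/165) * s) * (x - (1)) ^ 5 * ((2) - x) ^ 8
      + ((3177015776/15) + (5984551712/165) * s) * (x - (1)) ^ 6 * ((2) - x) ^ 7
      + ((7966177792/15) + (15009252736/165) * s) * (x - (1)) ^ 7 * ((2) - x) ^ 6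
      + ((2793501280/3) + (26515466464/165) * s) * (x - (1)) ^ 8 * ((2) - x) ^ 5
      + ((17173572736/15) + (6550548352/33) * s) * (x - (1)) ^ 9 * ((2) - x) ^ 4
      + ((2908787104/3) + (5557744672/33) * s) * (x - (1)) ^ 10 * ((2) - x) ^ 3
      + ((8096470592/15) + (15477915328/165) * s) * (x - (1)) ^ 11 * ((2) - x) ^ 2
      + ((890573568/5) + (5108339264/165) * s) * (x - (1)) ^ 12 * ((2) - x) ^ 1
      + ((132213248/5) + (50557312/11) * s) * (x - (1)) ^ 13 * ((2) - x) ^ 0 := by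
    unfold cofac
    ring
  rw [e]
  linarith

theorem cofac_nonneg (s x : ℝ) (h1 : (57445 / 10000 : ℝ) ≤ s) (h2 : s ≤ 57446 / 10000)
    (hl : -2 ≤ x) (hu : x ≤ 2) : 0 ≤ cofac s x := by
  rcases le_total x (-3/2) with h | h
  · exact cofac_nonneg_0 s x h1 h2 (by linarith) h
  rcases le_total x (-1) with h | h
  · exact cofac_nonneg_1 s x h1 h2 (by linarith) h
  rcases le_total x (0) with h | h
  · exact cofac_nonneg_2 s x h1 h2 (by linarith) h
  rcases le_total x (1/4) with h | h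
  · exact cofac_nonneg_3 s x h1 h2 (by linarith) h
  rcases le_total x (1/2) with h | h
  · exact cofac_nonneg_4 s x h1 h2 (by linarith) h
  rcases le_total x (1) with h | h
  · exact cofac_nonneg_5 s x h1 h2 (by linarith) h
  exact cofac_nonneg_6 s x h1 h2 (by linarith) (by linarith)

theorem phi_le (s x : ℝ) (hs : s ^ 2 = 33) (hs0 : 0 ≤ s) (hl : -2 ≤ x) (hu : x ≤ 2) :
    phi s x + subAct s x - subAct s (x ^ 2 - 2) ≤ 3 + s := by
  have h1 : (57445 / 10000 : ℝ) ≤ s := by nlinarith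
  have h2 : s ≤ 57446 / 10000 := by nlinarith
  have h3 := cofac_nonneg s x h1 h2 hl hu
  have h4 : 0 ≤ (2 - x) * quint s x ^ 2 * cofac s x / 2048 := by
    have : 0 ≤ 2 - x := by linarith
    positivity
  have h5 := certificate_identity s x hs
  linarith

end Pool.Agent.Lib.MP_38b438_an
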