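import Mathlib

set_option autoImplicit false

/-!
The doubling map of the circle `𝕋 = ℝ/ℤ`, maximizing measures, flowers and their petals, and the
space `V_n` of real trigonometric polynomials with odd frequencies at most `n`.
-/

open MeasureTheory Set Topology

namespace Pool.Agent.Lib.MP_38b438_an

/-- The doubling map `E₂ x = 2 x mod 1` of `𝕋 = ℝ/ℤ`. -/
def doubling (x : UnitAddCircle) : UnitAddCircle := x + x

/-- `μ` is an `E₂`-invariant Borel probability measure. -/
def IsInvariantProb (μ : Measure UnitAddCircle) : Prop :=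
  IsProbabilityMeasure μ ∧ μ.map doubling = μ

/-- `μ` is a maximizing measure for `f`. -/
def IsMaximizing (f : UnitAddCircle → ℝ) (μ : Measure UnitAddCircle) : Prop :=
  IsInvariantProb μ ∧ ∀ ν, IsInvariantProb ν → ∫ x, f x ∂ν ≤ ∫ x, f x ∂μ

/-- The closed interval (arc) of `𝕋` with end points `a` and `b`. -/
def arc (a b : ℝ) : Set UnitAddCircle := (fun t : ℝ => (t : UnitAddCircle)) '' Icc a b

/-- The translate `X + 1/2`. -/
def halfTurn (X : Set UnitAddCircle) : Set UnitAddCircle :=
  (fun x => x + ((1 / 2 : ℝ) : UnitAddCircle)) '' X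

/-- A flower: a finite union `X` of closed non-degenerate arcs such that `X ∪ (X + 1/2) = 𝕋` and
`X ∩ (X + 1/2) = ∂X`. -/
structure IsFlower (X : Set UnitAddCircle) : Prop where
  arcs : ∃ (k : ℕ) (a b : Fin k → ℝ), (∀ i, a i < b i) ∧ X = ⋃ i, arc (a i) (b i)
  union : X ∪ halfTurn X = univ
  inter : X ∩ halfTurn X = frontier X

/-- The number of petals, i.e. of connected components. -/
noncomputable def petals (X : Set UnitAddCircle) : ℕ∞ := ENat.card (ConnectedComponents X)

/-- `f ∈ V_n`: `f` is a real trigonometric polynomial with odd frequencies at most `n`, with not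
all coefficients zero. -/
def IsOddTrigPoly (n : ℕ) (f : UnitAddCircle → ℝ) : Prop :=
  ∃ a b : ℕ → ℝ, (∃ k, Odd k ∧ k ≤ n ∧ (a k ≠ 0 ∨ b k ≠ 0)) ∧
    ∀ x : ℝ, f x = ∑ k ∈ (Finset.range (n + 1)).filter Odd,
      (a k * Real.cos (2 * Real.pi * k * x) + b k * Real.sin (2 * Real.pi * k * x))

end Pool.Agent.Lib.MP_38b438_an
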