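import Pool.Agent.Lib.MP_38b438_an.Invariant

set_option autoImplicit false

/-!
Cosine sums over the cycle of `1/33` under doubling.
-/

open MeasureTheory Set Topology

namespace Pool.Agent.Lib.MP_38b438_an

/-- `2 cos (2πk/33)`. -/
noncomputable def Y (k : ℕ) : ℝ := 2 * Real.cos (2 * Real.pi * k / 33)

/-- A primitive 33rd root of unity. -/
noncomputable def zeta : ℂ := Complex.exp (2 * Real.pi * Complex.I / 33)

theorem zeta_primitive : IsPrimitiveRoot zeta 33 := by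
  have := Complex.isPrimitiveRoot_exp 33 (by norm_num)
  unfold zeta
  simpa using this

theorem zeta_pow (k : ℕ) :
    zeta ^ k = Complex.exp ((2 * Real.pi * k / 33 : ℝ) * Complex.I) := by
  unfold zeta
  rw [← Complex.exp_nat_mul]
  congr 1
  push_cast
  ring

theorem zeta_pow_compl {k : ℕ} (hk : k ≤ 33) :
    zeta ^ (33 - k) = Complex.exp (-((2 * Real.pi * k / 33 : ℝ) * Complex.I)) := by
  have h1 : zeta ^ (33 - k) * zeta ^ k = 1 := by
    rw [← pow_add, Nat.sub_add_cancel hk, zeta_primitive.pow_eq_one]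
  rw [zeta_pow k] at h1
  rw [Complex.exp_neg]
  exact eq_inv_of_mul_eq_one_left h1

theorem Y_eq {k : ℕ} (hk : k ≤ 33) : (Y k : ℂ) = zeta ^ k + zeta ^ (33 - k) := by
  rw [zeta_pow, zeta_pow_compl hk]
  unfold Y
  rw [Complex.ofReal_mul, Complex.ofReal_cos, Complex.cos]
  push_cast
  ring_nf

theorem sum_Y : Y 1 + Y 2 + Y 4 + Y 8 + Y 16 = (1 + √33) / 2 := by
  have h33 : zeta ^ 33 = 1 := zeta_primitive.pow_eq_one
  have hall : ∑ i ∈ Finset.range 33, zeta ^ i = 0 :=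
    zeta_primitive.geom_sum_eq_zero (by norm_num)
  have h3 : ∑ i ∈ Finset.range 3, (zeta ^ 11) ^ i = 0 :=
    (zeta_primitive.pow (by norm_num) (by norm_num : 33 = 11 * 3)).geom_sum_eq_zero (by norm_num)
  have h11 : ∑ i ∈ Finset.range 11, (zeta ^ 3) ^ i = 0 :=
    (zeta_primitive.pow (by norm_num) (by norm_num : 33 = 3 * 11)).geom_sum_eq_zero (by norm_num)
  have hq : (Y 1 + Y 2 + Y 4 + Y 8 + Y 16) ^ 2 - (Y 1 + Y 2 + Y 4 + Y 8 + Y 16) - 8 = 0 := by
    have : (((Y 1 + Y 2 + Y 4 + Y 8 + Y 16) ^ 2 - (Y 1 + Y 2 + Y 4 + Y 8 + Y 16) - 8 : ℝ) : ℂ)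
        = 0 := by
      push_cast
      rw [Y_eq (by norm_num), Y_eq (by norm_num), Y_eq (by norm_num), Y_eq (by norm_num),
        Y_eq (by norm_num)]
      simp only [Finset.sum_range_succ, Finset.sum_range_zero, Nat.reduceSub] at hall h3 h11 ⊢
      generalize zeta = z at *
      linear_combination (10 + 3 * z + 2 * z ^ 2 + 2 * z ^ 3 + 2 * z ^ 4 + 2 * z ^ 6 + 2 * z ^ 7
        + 2 * z ^ 8 + 2 * z ^ 9 + 2 * z ^ 12 + 2 * z ^ 13 + 2 * z ^ 14 + 4 * z ^ 15 + 2 * z ^ 16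
        + z ^ 17 + 2 * z ^ 21 + 2 * z ^ 23 + 2 * z ^ 24 + z ^ 25 + 2 * z ^ 27 + 2 * z ^ 28
        + z ^ 29 + 2 * z ^ 30 + z ^ 31) * h33 + 2 * hall - 2 * h3 + 2 * h11
    exact_mod_cast this
  have hpi := Real.pi_pos
  have hcos : ∀ x : ℝ, 0 ≤ x → x ≤ Real.pi / 3 → 1 / 2 ≤ Real.cos x := by
    intro x h0 h1
    rw [← Real.cos_pi_div_three]
    exact Real.cos_le_cos_of_nonneg_of_le_pi h0 (by linarith) h1
  have hpos : 0 < Y 1 + Y 2 + Y 4 + Y 8 + Y 16 := by
    unfold Y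
    push_cast
    have e1 := hcos (2 * Real.pi * 1 / 33) (by positivity) (by linarith)
    have e2 := hcos (2 * Real.pi * 2 / 33) (by positivity) (by linarith)
    have e3 := hcos (2 * Real.pi * 4 / 33) (by positivity) (by linarith)
    have e4 : 0 ≤ Real.cos (2 * Real.pi * 8 / 33) :=
      Real.cos_nonneg_of_neg_pi_div_two_le_of_le (by linarith) (by linarith)
    have e5 := Real.neg_one_le_cos (2 * Real.pi * 16 / 33)
    linarith
  have hs : √33 ^ 2 = 33 := Real.sq_sqrt (by norm_num)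
  have hs0 : 0 ≤ √33 := Real.sqrt_nonneg _
  have hs1 : 1 < √33 := by
    rw [Real.lt_sqrt (by norm_num)]
    norm_num
  set u := Y 1 + Y 2 + Y 4 + Y 8 + Y 16
  have : (u - (1 + √33) / 2) * (u - (1 - √33) / 2) = 0 := by
    linear_combination hq - hs / 4
  rcases mul_eq_zero.mp this with h | h
  · linarith
  · exfalso
    linarith

theorem sum_Y3 : Y 3 + Y 6 + Y 12 + Y 24 + Y 15 = -1 := by
  have h11 : ∑ i ∈ Finset.range 11, (zeta ^ 3) ^ i = 0 :=
    (zeta_primitive.pow (by norm_num) (by norm_num : 33 = 3 * 11)).geom_sum_eq_zero (by norm_num)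
  have : ((Y 3 + Y 6 + Y 12 + Y 24 + Y 15 : ℝ) : ℂ) = ((-1 : ℝ) : ℂ) := by
    push_cast
    rw [Y_eq (by norm_num), Y_eq (by norm_num), Y_eq (by norm_num), Y_eq (by norm_num),
      Y_eq (by norm_num)]
    simp only [Finset.sum_range_succ, Finset.sum_range_zero, Nat.reduceSub] at h11 ⊢
    generalize zeta = z at *
    linear_combination h11
  exact_mod_cast this

theorem Y_sq (k : ℕ) : Y (2 * k) = Y k ^ 2 - 2 := by
  unfold Y
  have : 2 * Real.pi * ((2 * k : ℕ) : ℝ) / 33 = 2 * (2 * Real.pi * k / 33) := by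
    push_cast
    ring
  rw [this, Real.cos_two_mul]
  ring

theorem Y_cube (k : ℕ) : Y (3 * k) = Y k ^ 3 - 3 * Y k := by
  unfold Y
  have : 2 * Real.pi * ((3 * k : ℕ) : ℝ) / 33 = 3 * (2 * Real.pi * k / 33) := by
    push_cast
    ring
  rw [this, Real.cos_three_mul]
  ring

theorem Y_sub {k : ℕ} (hk : k ≤ 33) : Y (33 - k) = Y k := by
  unfold Y
  have : 2 * Real.pi * ((33 - k : ℕ) : ℝ) / 33 = 2 * Real.pi - 2 * Real.pi * k / 33 := by
    rw [Nat.cast_sub hk]
    push_cast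
    field_simp
  rw [this, Real.cos_two_pi_sub]

end Pool.Agent.Lib.MP_38b438_an
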