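import Pool.Agent.Lib.MP_38b438_an.Petals
import Pool.Agent.Lib.MP_38b438_an.Sums
import Pool.Agent.Lib.MP_38b438_an.Certificate

set_option autoImplicit false

/-!
The counterexample with `n = 3`: the function `22 cos 2πx - (19 - √33) cos 6πx` and the measure
which is the average of the Dirac measure at `0` and the measure on the cycle of `1/33`.
-/

open MeasureTheory Set Topology
open scoped ENNReal

namespace Pool.Agent.Lib.MP_38b438_an

theorem doubling_iterate_coe (i : ℕ) (t : ℝ) :
    doubling^[i] (t : UnitAddCircle) = ((2 ^ i * t : ℝ) : UnitAddCircle) := by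
  induction i with
  | zero => simp
  | succ i ih =>
    rw [Function.iterate_succ_apply', ih, doubling_coe]
    congr 1
    ring

theorem coe_add_nat (t : ℝ) (n : ℕ) : ((t + n : ℝ) : UnitAddCircle) = (t : UnitAddCircle) := by
  rw [AddCircle.coe_add]
  have : ((n : ℝ) : UnitAddCircle) = 0 := by
    have h := AddCircle.coe_nsmul (p := (1 : ℝ)) (n := n) (x := (1 : ℝ))
    rw [AddCircle.coe_period, smul_zero] at h
    simpa using h
  rw [this, add_zero]

/-- The point `1/33`. -/
noncomputable def x33 : UnitAddCircle := ((1 / 33 : ℝ) : UnitAddCircle)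

theorem x33_periodic : doubling^[10] x33 = x33 := by
  unfold x33
  rw [doubling_iterate_coe, show (2 ^ 10 * (1 / 33) : ℝ) = 1 / 33 + (31 : ℕ) by norm_num,
    coe_add_nat]

/-- The function `f`. -/
noncomputable def f3 (x : UnitAddCircle) : ℝ := phi (√33) (cosTwo x)

theorem continuous_phi (s : ℝ) : Continuous (phi s) := by
  unfold phi
  fun_prop

theorem continuous_subAct (s : ℝ) : Continuous (subAct s) := by
  unfold subAct
  fun_prop

theorem continuous_f3 : Continuous f3 := (continuous_phi _).comp continuous_cosTwo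

theorem f3_coe (t : ℝ) : f3 (t : UnitAddCircle) =
    22 * Real.cos (2 * Real.pi * t) - (19 - √33) * Real.cos (3 * (2 * Real.pi * t)) := by
  unfold f3 phi
  rw [cosTwo_coe, Real.cos_three_mul]
  ring

theorem isOddTrigPoly_f3 : IsOddTrigPoly 3 f3 := by
  refine ⟨fun k => if k = 1 then 22 else -(19 - √33), fun _ => 0,
    ⟨1, odd_one, by norm_num, Or.inl (by norm_num)⟩, fun x => ?_⟩
  rw [f3_coe, Finset.sum_filter]
  have h0 : ¬ Odd 0 := by decide
  have h2 : ¬ Odd 2 := by decide
  have h3 : Odd 3 := by decide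
  simp only [Finset.sum_range_succ, Finset.sum_range_zero, h0, h2, h3, odd_one, if_true, if_false]
  push_cast
  norm_num
  ring_nf

theorem cosTwo_x33 (i : ℕ) : cosTwo (doubling^[i] x33) = Y (2 ^ i) := by
  unfold x33 Y
  rw [doubling_iterate_coe, cosTwo_coe]
  congr 2
  push_cast
  ring

theorem phi_Y (k : ℕ) : phi (√33) (Y k) = 11 * Y k - (19 - √33) / 2 * Y (3 * k) := by
  rw [Y_cube]
  rfl

theorem Y_64 : Y 32 = Y 1 ∧ Y 64 = Y 2 ∧ Y 128 = Y 4 ∧ Y 256 = Y 8 ∧ Y 512 = Y 16 ∧
    Y 48 = Y 15 := by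
  have h1 : Y 32 = Y 1 := (Y_sub (k := 32) (by norm_num)).symm
  have h2 : Y 64 = Y 2 := by rw [show 64 = 2 * 32 by norm_num, Y_sq, h1, ← Y_sq]
  have h3 : Y 128 = Y 4 := by rw [show 128 = 2 * 64 by norm_num, Y_sq, h2, ← Y_sq]
  have h4 : Y 256 = Y 8 := by rw [show 256 = 2 * 128 by norm_num, Y_sq, h3, ← Y_sq]
  have h5 : Y 512 = Y 16 := by rw [show 512 = 2 * 256 by norm_num, Y_sq, h4, ← Y_sq]
  have h6 : Y 24 = Y 9 := (Y_sub (k := 24) (by norm_num)).symm
  have h7 : Y 18 = Y 15 := (Y_sub (k := 18) (by norm_num)).symm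
  have h8 : Y 48 = Y 15 := by rw [show 48 = 2 * 24 by norm_num, Y_sq, h6, ← Y_sq, ← h7]
  exact ⟨h1, h2, h3, h4, h5, h8⟩

theorem integral_cycle33 : ∫ x, f3 x ∂(cycleMeasure 10 x33) = 3 + √33 := by
  rw [integral_cycleMeasure _ continuous_f3]
  have h : ∀ i, f3 (doubling^[i] x33) = phi (√33) (Y (2 ^ i)) := by
    intro i
    unfold f3
    rw [cosTwo_x33]
  simp only [h, Finset.sum_range_succ, Finset.sum_range_zero]
  norm_num
  obtain ⟨h1, h2, h3, h4, h5, h6⟩ := Y_64
  rw [h1, h2, h3, h4, h5, phi_Y, phi_Y, phi_Y, phi_Y, phi_Y]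
  norm_num
  rw [h6]
  have e1 := sum_Y
  have e2 := sum_Y3
  linear_combination (11 / 5) * e1 - (19 - √33) / 10 * e2

theorem integral_zero : ∫ x, f3 x ∂(cycleMeasure 1 (0 : UnitAddCircle)) = 3 + √33 := by
  rw [integral_cycleMeasure _ continuous_f3]
  have h0 : f3 (0 : UnitAddCircle) = 3 + √33 := by
    have := f3_coe 0
    rw [show ((0 : ℝ) : UnitAddCircle) = 0 from AddCircle.coe_zero (p := (1 : ℝ))] at this
    rw [this]
    simp
    ring
  simp [h0]

/-- The maximizing measure. -/
noncomputable def mu3 : Measure UnitAddCircle :=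
  (2 : ℝ≥0∞)⁻¹ • (cycleMeasure 1 (0 : UnitAddCircle) + cycleMeasure 10 x33)

theorem isInvariantProb_zero : IsInvariantProb (cycleMeasure 1 (0 : UnitAddCircle)) :=
  isInvariantProb_cycleMeasure one_pos (by simp [doubling])

theorem isInvariantProb_cycle33 : IsInvariantProb (cycleMeasure 10 x33) :=
  isInvariantProb_cycleMeasure (by norm_num) x33_periodic

theorem isInvariantProb_mu3 : IsInvariantProb mu3 :=
  isInvariantProb_average isInvariantProb_zero isInvariantProb_cycle33

theorem integral_mu3 : ∫ x, f3 x ∂mu3 = 3 + √33 := by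
  have hint : ∀ μ : Measure UnitAddCircle, IsInvariantProb μ → Integrable f3 μ := by
    intro μ hμ
    have := hμ.1
    exact continuous_f3.integrable_of_hasCompactSupport (HasCompactSupport.of_compactSpace f3)
  unfold mu3
  rw [integral_smul_measure, integral_add_measure (hint _ isInvariantProb_zero)
    (hint _ isInvariantProb_cycle33), integral_zero, integral_cycle33]
  simp
  ring

theorem isMaximizing_mu3 : IsMaximizing f3 mu3 := by
  refine ⟨isInvariantProb_mu3, fun ν hν => ?_⟩
  rw [integral_mu3]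
  refine integral_le_of_subaction (continuous_phi _) (continuous_subAct (√33)) ?_ hν
  rintro x ⟨h1, h2⟩
  exact phi_le (√33) x (Real.sq_sqrt (by norm_num)) (Real.sqrt_nonneg _) h1 h2

theorem support_average_left {μ ν : Measure UnitAddCircle} :
    μ.support ⊆ ((2 : ℝ≥0∞)⁻¹ • (μ + ν)).support := by
  intro x hx
  rw [Measure.mem_support_iff_forall] at hx ⊢
  intro U hU
  rw [Measure.smul_apply, Measure.add_apply, smul_eq_mul]
  exact ENNReal.mul_pos (by simp) ((hx U hU).trans_le le_self_add).ne'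

theorem support_average_right {μ ν : Measure UnitAddCircle} :
    ν.support ⊆ ((2 : ℝ≥0∞)⁻¹ • (μ + ν)).support := by
  rw [add_comm μ ν]
  exact support_average_left

theorem five_le_petals {X : Set UnitAddCircle} (hX : IsFlower X) (h : mu3.support ⊆ X) :
    5 ≤ petals X := by
  have hX0 : ((0 : ℝ) : UnitAddCircle) ∈ X := by
    apply h
    apply support_average_left
    have := mem_support_cycleMeasure (p := 1) (x := (0 : UnitAddCircle)) (i := 0) one_pos
    rw [show ((0 : ℝ) : UnitAddCircle) = 0 from AddCircle.coe_zero (p := (1 : ℝ))]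
    exact this
  have hXi : ∀ i < 10, ((2 ^ i * (1 / 33) : ℝ) : UnitAddCircle) ∈ X := by
    intro i hi
    apply h
    apply support_average_right
    have := mem_support_cycleMeasure (p := 10) (x := x33) (i := i) hi
    unfold x33 at this
    rwa [doubling_iterate_coe] at this
  have hX1 : ((1 / 33 : ℝ) : UnitAddCircle) ∈ X := by
    have := hXi 0 (by norm_num)
    simpa using this
  have hX16 : ((16 / 33 : ℝ) : UnitAddCircle) ∈ X := by
    have := hXi 4 (by norm_num)
    rwa [show (2 ^ 4 * (1 / 33) : ℝ) = 16 / 33 by norm_num] at this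
  have hX17 : ((17 / 33 : ℝ) : UnitAddCircle) ∈ X := by
    have := hXi 9 (by norm_num)
    rwa [show (2 ^ 9 * (1 / 33) : ℝ) = 17 / 33 + (15 : ℕ) by norm_num, coe_add_nat] at this
  have hX25 : ((25 / 33 : ℝ) : UnitAddCircle) ∈ X := by
    have := hXi 8 (by norm_num)
    rwa [show (2 ^ 8 * (1 / 33) : ℝ) = 25 / 33 + (7 : ℕ) by norm_num, coe_add_nat] at this
  have hhalf : ∀ t u : ℝ, (t : UnitAddCircle) ∈ X → ∀ n : ℕ, t + 1 / 2 = u + n →
      (u : UnitAddCircle) ∈ halfTurn X := by
    intro t u ht n hn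
    refine ⟨(t : UnitAddCircle), ht, ?_⟩
    change (t : UnitAddCircle) + ((1 / 2 : ℝ) : UnitAddCircle) = (u : UnitAddCircle)
    rw [← AddCircle.coe_add, hn, coe_add_nat]
  have key := le_petals hX (m := 5) ![0, 1 / 33, 16 / 33, 17 / 33, 25 / 33]
    ![1 / 66, 17 / 66, 1 / 2, 35 / 66, 65 / 66] ?_ ?_ ?_ ?_ ?_
  · exact_mod_cast key
  · intro i
    fin_cases i <;> norm_num
  · intro i j hij
    fin_cases i <;> fin_cases j <;> simp at hij ⊢ <;> norm_num
  · intro i j
    fin_cases i <;> fin_cases j <;> norm_num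
  · intro i
    fin_cases i
    · exact hX0
    · exact hX1
    · exact hX16
    · exact hX17
    · exact hX25
  · intro i
    fin_cases i
    · exact hhalf _ _ hX17 1 (by norm_num)
    · exact hhalf _ _ hX25 1 (by norm_num)
    · exact hhalf _ _ hX0 0 (by norm_num)
    · exact hhalf _ _ hX1 0 (by norm_num)
    · exact hhalf _ _ hX16 0 (by norm_num)

end Pool.Agent.Lib.MP_38b438_an
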