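import Pool.Agent.Lib.MP_38b438_an.Arcs5
import Pool.Agent.Lib.MP_38b438_an.Example3

set_option autoImplicit false

/-!
The counterexample with `n = 5`: every maximizing measure of a function close to
`-73 cos 2πx - 100 cos 6πx - 66 cos 10πx` charges all arcs around the cycle of `3/43`.
-/

open MeasureTheory Set Topology
open scoped ENNReal

namespace Pool.Agent.Lib.MP_38b438_an

/-- The function `f`. -/
noncomputable def f5 (x : UnitAddCircle) : ℝ := phi5 (cosTwo x)

theorem continuous_phi5 : Continuous phi5 := by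
  unfold phi5
  fun_prop

theorem continuous_f5 : Continuous f5 := continuous_phi5.comp continuous_cosTwo

theorem cos_five_mul (x : ℝ) :
    Real.cos (5 * x) = 16 * Real.cos x ^ 5 - 20 * Real.cos x ^ 3 + 5 * Real.cos x := by
  have h1 : 5 * x = 2 * x + 3 * x := by ring
  have h2 := Real.sin_sq_add_cos_sq x
  rw [h1, Real.cos_add, Real.cos_two_mul, Real.cos_three_mul, Real.sin_two_mul,
    Real.sin_three_mul]
  linear_combination (-6 * Real.cos x + 8 * Real.cos x * Real.sin x ^ 2
    + 8 * Real.cos x * (1 - Real.cos x ^ 2)) * h2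

theorem f5_coe (t : ℝ) : f5 (t : UnitAddCircle) =
    -(73 * Real.cos (2 * Real.pi * t) + 100 * Real.cos (3 * (2 * Real.pi * t)) +
      66 * Real.cos (5 * (2 * Real.pi * t))) := by
  unfold f5 phi5
  rw [cosTwo_coe, Real.cos_three_mul, cos_five_mul]
  ring

theorem isOddTrigPoly_f5 : IsOddTrigPoly 5 f5 := by
  refine ⟨fun k => if k = 1 then -73 else if k = 3 then -100 else -66, fun _ => 0,
    ⟨1, odd_one, by norm_num, Or.inl (by norm_num)⟩, fun x => ?_⟩
  rw [f5_coe, Finset.sum_filter]
  have h0 : ¬ Odd 0 := by decide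
  have h2 : ¬ Odd 2 := by decide
  have h3 : Odd 3 := by decide
  have h4 : ¬ Odd 4 := by decide
  have h5 : Odd 5 := by decide
  simp only [Finset.sum_range_succ, Finset.sum_range_zero, h0, h2, h3, h4, h5, odd_one, if_true,
    if_false]
  push_cast
  norm_num
  ring_nf

/-- The point `3/43`. -/
noncomputable def x43 : UnitAddCircle := ((3 / 43 : ℝ) : UnitAddCircle)

theorem x43_periodic : doubling^[14] x43 = x43 := by
  unfold x43
  rw [doubling_iterate_coe, show (2 ^ 14 * (3 / 43) : ℝ) = 3 / 43 + (1143 : ℕ) by norm_num,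
    coe_add_nat]

theorem cosTwo_x43 (i : ℕ) : cosTwo (doubling^[i] x43) = wseq (i + 7) := by
  unfold x43 wseq
  rw [doubling_iterate_coe, cosTwo_coe]
  congr 2
  rw [pow_add]
  ring

theorem wseq_add_seven (i : ℕ) : wseq (7 + i + 7) = wseq (7 + i) := by
  induction i with
  | zero =>
    unfold wseq
    have : 3 * Real.pi / 2752 * 2 ^ (7 + 0 + 7) =
        (9 : ℕ) * (2 * Real.pi) - 3 * Real.pi / 2752 * 2 ^ (7 + 0) := by
      push_cast
      ring
    rw [this, Real.cos_nat_mul_two_pi_sub]
  | succ i ih =>
    rw [show 7 + (i + 1) + 7 = (7 + i + 7) + 1 by ring, wseq_succ, ih,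
      show 7 + (i + 1) = (7 + i) + 1 by ring, wseq_succ]

/-- The measure on the cycle of `3/43`. -/
noncomputable def mu43 : Measure UnitAddCircle := cycleMeasure 14 x43

theorem isInvariantProb_mu43 : IsInvariantProb mu43 :=
  isInvariantProb_cycleMeasure (by norm_num) x43_periodic

theorem integral_gap_mu43 : ∫ x, gapFun x ∂mu43 ≤ 144 / 7 := by
  unfold mu43
  rw [integral_cycleMeasure _ continuous_gapFun]
  have h : ∀ i, gapFun (doubling^[i] x43) = ev (wseq (i + 7)) gap5 := by
    intro i
    unfold gapFun
    rw [cosTwo_x43]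
  simp only [h, Finset.sum_range_succ, Finset.sum_range_zero, Nat.reduceAdd]
  have e0 := wseq_add_seven 0
  have e1 := wseq_add_seven 1
  have e2 := wseq_add_seven 2
  have e3 := wseq_add_seven 3
  have e4 := wseq_add_seven 4
  have e5 := wseq_add_seven 5
  have e6 := wseq_add_seven 6
  norm_num at e0 e1 e2 e3 e4 e5 e6
  rw [e0, e1, e2, e3, e4, e5, e6]
  have u0 := gap5_upper_0
  have u1 := gap5_upper_1
  have u2 := gap5_upper_2
  have u3 := gap5_upper_3
  have u4 := gap5_upper_4
  have u5 := gap5_upper_5
  have u6 := gap5_upper_6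
  push_cast
  linarith

theorem integrable_of_continuous {μ : Measure UnitAddCircle} (hμ : IsInvariantProb μ)
    {g : UnitAddCircle → ℝ} (hg : Continuous g) : Integrable g μ := by
  have := hμ.1
  exact hg.integrable_of_hasCompactSupport (HasCompactSupport.of_compactSpace g)

/-- The integral of the gap function against an invariant measure. -/
theorem integral_gap {μ : Measure UnitAddCircle} (hμ : IsInvariantProb μ) :
    ∫ x, gapFun x ∂μ = 50206 - 1000 * ∫ x, f5 x ∂μ := by
  have hp := hμ.1
  let H : UnitAddCircle → ℝ := fun x => ev (cosTwo x) subAct5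
  have hH : Continuous H := (continuous_ev subAct5).comp continuous_cosTwo
  have hHd : Continuous fun x => H (doubling x) := hH.comp continuous_doubling
  have h1 : ∫ x, H (doubling x) ∂μ = ∫ x, H x ∂μ := by
    conv_rhs => rw [← hμ.2]
    rw [integral_map measurable_doubling.aemeasurable hH.aestronglyMeasurable]
  have h2 : ∀ x, gapFun x = (50206 - 1000 * f5 x) - (H x - H (doubling x)) := by
    intro x
    change ev (cosTwo x) gap5 = (50206 - 1000 * phi5 (cosTwo x)) -
      (ev (cosTwo x) subAct5 - ev (cosTwo (doubling x)) subAct5)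
    rw [gap5_eq, cosTwo_doubling]
    ring
  have i1 : Integrable (fun x => (50206 : ℝ) - 1000 * f5 x) μ :=
    (integrable_const _).sub ((integrable_of_continuous hμ continuous_f5).const_mul 1000)
  have i2 : Integrable (fun x => H x - H (doubling x)) μ :=
    (integrable_of_continuous hμ hH).sub (integrable_of_continuous hμ hHd)
  calc ∫ x, gapFun x ∂μ = ∫ x, ((50206 - 1000 * f5 x) - (H x - H (doubling x))) ∂μ :=
        integral_congr_ae (Filter.Eventually.of_forall h2)
    _ = ∫ x, ((50206 : ℝ) - 1000 * f5 x) ∂μ - ∫ x, (H x - H (doubling x)) ∂μ :=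
        integral_sub i1 i2
    _ = 50206 - 1000 * ∫ x, f5 x ∂μ := by
        rw [integral_sub (integrable_of_continuous hμ hH) (integrable_of_continuous hμ hHd), h1,
          integral_sub (integrable_const _)
            ((integrable_of_continuous hμ continuous_f5).const_mul 1000),
          integral_const_mul]
        simp

/-- An invariant measure which does not charge one of the arcs has a large integral of the gap
function. -/
theorem le_integral_gap {μ : Measure UnitAddCircle} (hμ : IsInvariantProb μ) {i : Fin 14}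
    (h0 : μ (arc5 i) = 0) : 500 / 14 ≤ ∫ x, gapFun x ∂μ := by
  have hp := hμ.1
  have hU : MeasurableSet (⋃ k, arc5 k)ᶜ :=
    (MeasurableSet.iUnion fun k => (isOpen_arc5 k).measurableSet).compl
  have h1 := one_le_card_mul_compl (p := 14) (A := arc5)
    (fun k => (isOpen_arc5 k).measurableSet) trans_arc5 hμ h0
  have h2 : (1 : ℝ) ≤ 14 * μ.real (⋃ k, arc5 k)ᶜ := by
    have h3 := ENNReal.toReal_mono (by
      exact ENNReal.mul_ne_top (ENNReal.natCast_ne_top _) (measure_ne_top _ _)) h1
    rw [ENNReal.toReal_one, ENNReal.toReal_mul] at h3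
    simpa [Measure.real] using h3
  have h4 : ∫ x, (⋃ k, arc5 k)ᶜ.indicator (fun _ => (500 : ℝ)) x ∂μ ≤ ∫ x, gapFun x ∂μ := by
    apply integral_mono
    · exact (integrable_const (500 : ℝ)).indicator hU
    · exact integrable_of_continuous hμ continuous_gapFun
    · intro x
      by_cases hx : x ∈ (⋃ k, arc5 k)ᶜ
      · rw [Set.indicator_of_mem hx]
        exact (gapFun_bounds x).2 hx
      · rw [Set.indicator_of_notMem hx]
        exact (gapFun_bounds x).1
  rw [integral_indicator_const _ hU, smul_eq_mul] at h4
  linarith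

/-- Every maximizing measure of a function close to `f` charges every arc. -/
theorem arc_pos {g : UnitAddCircle → ℝ} (hg : Continuous g)
    (hfg : ∀ x, |g x - f5 x| ≤ 1 / 200) {μ : Measure UnitAddCircle} (hμ : IsMaximizing g μ)
    (i : Fin 14) : μ (arc5 i) ≠ 0 := by
  intro h0
  have h1 := le_integral_gap hμ.1 h0
  have h2 := integral_gap_mu43
  rw [integral_gap hμ.1] at h1
  rw [integral_gap isInvariantProb_mu43] at h2
  have h3 := hμ.2 _ isInvariantProb_mu43
  have key : ∀ ν : Measure UnitAddCircle, IsInvariantProb ν →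
      |∫ x, g x ∂ν - ∫ x, f5 x ∂ν| ≤ 1 / 200 := by
    intro ν hν
    have hp := hν.1
    rw [← integral_sub (integrable_of_continuous hν hg)
      (integrable_of_continuous hν continuous_f5)]
    have h5 := norm_integral_le_of_norm_le_const (μ := ν) (f := fun x => g x - f5 x)
      (C := 1 / 200) (Filter.Eventually.of_forall fun x => by
        rw [Real.norm_eq_abs]
        exact hfg x)
    simpa [Real.norm_eq_abs] using h5
  have h6 := abs_le.mp (key μ hμ.1)
  have h7 := abs_le.mp (key mu43 isInvariantProb_mu43)
  linarith [h6.1, h6.2, h7.1, h7.2]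

/-- The support of every maximizing measure of a function close to `f` meets every arc. -/
theorem exists_mem_support {g : UnitAddCircle → ℝ} (hg : Continuous g)
    (hfg : ∀ x, |g x - f5 x| ≤ 1 / 200) {μ : Measure UnitAddCircle} (hμ : IsMaximizing g μ)
    (i : Fin 14) : ∃ p, p ∈ μ.support ∧ p ∈ arc5 i := by
  by_contra hcon
  apply arc_pos hg hfg hμ i
  apply measure_mono_null _ (Measure.measure_compl_support (μ := μ))
  intro p hp hs
  exact hcon ⟨p, hs, hp⟩

end Pool.Agent.Lib.MP_38b438_an
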