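import Pool.Agent.Lib.MP_38b438_an.Defs

set_option autoImplicit false

/-!
A lower bound for the number of petals of a flower that contains given points.
-/

open MeasureTheory Set Topology

namespace Pool.Agent.Lib.MP_38b438_an

theorem isOpen_coe_Ioo (a b : ℝ) :
    IsOpen ((fun t : ℝ => (t : UnitAddCircle)) '' Ioo a b) :=
  QuotientAddGroup.isOpenMap_coe _ isOpen_Ioo

theorem coe_inj_Ioo {a s t : ℝ} (hs : s ∈ Ioo a (a + 1)) (ht : t ∈ Ioo a (a + 1))
    (h : (s : UnitAddCircle) = t) : s = t := by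
  have := (AddCircle.coe_eq_coe_iff_of_mem_Ico (p := (1 : ℝ)) (a := a)
    (Ioo_subset_Ico_self hs) (Ioo_subset_Ico_self ht)).mp h
  exact this

/-- A preconnected subset of the circle which contains two points contains one of the two open
arcs between them. -/
theorem arc_subset_of_isPreconnected {C : Set UnitAddCircle} (hC : IsPreconnected C) {s t : ℝ}
    (hs : (s : UnitAddCircle) ∈ C) (ht : (t : UnitAddCircle) ∈ C) :
    (fun t : ℝ => (t : UnitAddCircle)) '' Ioo s t ⊆ C ∨
      (fun t : ℝ => (t : UnitAddCircle)) '' Ioo t (s + 1) ⊆ C := by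
  by_contra hcon
  rw [not_or] at hcon
  obtain ⟨h1, h2⟩ := hcon
  rw [Set.not_subset] at h1 h2
  obtain ⟨-, ⟨u, hu, rfl⟩, hu'⟩ := h1
  obtain ⟨-, ⟨v, hv, rfl⟩, hv'⟩ := h2
  have hcover : C ⊆ ((fun t : ℝ => (t : UnitAddCircle)) '' Ioo (v - 1) u) ∪
      ((fun t : ℝ => (t : UnitAddCircle)) '' Ioo u v) := by
    intro c hc
    obtain ⟨x, hx⟩ : ∃ x ∈ Ico (v - 1) (v - 1 + 1), (x : UnitAddCircle) = c := by
      refine ⟨AddCircle.equivIco 1 (v - 1) c, (AddCircle.equivIco 1 (v - 1) c).2, ?_⟩
      exact AddCircle.coe_equivIco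
    obtain ⟨⟨hx1, hx2⟩, rfl⟩ := hx
    have hne1 : x ≠ v - 1 := by
      rintro rfl
      apply hv'
      have : ((v - 1 : ℝ) : UnitAddCircle) = (v : UnitAddCircle) := by
        rw [AddCircle.coe_sub]
        have : ((1 : ℝ) : UnitAddCircle) = 0 := AddCircle.coe_period 1
        rw [this, sub_zero]
      change (v : UnitAddCircle) ∈ C
      rw [← this]
      exact hc
    have hne2 : x ≠ u := by
      rintro rfl
      exact hu' hc
    rcases lt_or_gt_of_ne hne2 with h | h
    · left
      exact ⟨x, ⟨lt_of_le_of_ne hx1 (Ne.symm hne1), h⟩, rfl⟩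
    · right
      exact ⟨x, ⟨h, by linarith⟩, rfl⟩
  have h3 := hC _ _ (isOpen_coe_Ioo (v - 1) u) (isOpen_coe_Ioo u v) hcover
    ⟨(s : UnitAddCircle), hs, ⟨s, ⟨by linarith [hv.2], hu.1⟩, rfl⟩⟩
    ⟨(t : UnitAddCircle), ht, ⟨t, ⟨hu.2, hv.1⟩, rfl⟩⟩
  obtain ⟨w, -, ⟨x, hx, hxw⟩, ⟨y, hy, hyw⟩⟩ := h3
  have hvu : u < v := hu.2.trans hv.1
  have huv : v < u + 1 := by linarith [hv.2, hu.1]
  have := coe_inj_Ioo (a := v - 1) (s := x) (t := y) ⟨hx.1, by linarith [hx.2]⟩
    ⟨by linarith [hy.1], by linarith [hy.2]⟩ (hxw.trans hyw.symm)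
  linarith [hx.2, hy.1]

/-- If `m` points of a flower alternate with points whose antipodes also belong to the flower,
then the flower has at least `m` petals. -/
theorem le_petals {X : Set UnitAddCircle} (hX : IsFlower X) {m : ℕ} (p z : Fin m → ℝ)
    (hpz : ∀ i, p i < z i) (hzp : ∀ i j, i < j → z i < p j) (hz : ∀ i j, z j < p i + 1)
    (hpX : ∀ i, (p i : UnitAddCircle) ∈ X)
    (hzX : ∀ i, (z i : UnitAddCircle) ∈ halfTurn X) :
    (m : ℕ∞) ≤ petals X := by
  have hzint : ∀ i, (z i : UnitAddCircle) ∉ interior X := by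
    intro i hi
    have h1 : (z i : UnitAddCircle) ∈ frontier X := by
      rw [← hX.inter]
      exact ⟨interior_subset hi, hzX i⟩
    exact h1.2 hi
  have key : ∀ i j : Fin m, i < j → ∀ C : Set UnitAddCircle, IsPreconnected C → C ⊆ X →
      (p i : UnitAddCircle) ∈ C → (p j : UnitAddCircle) ∈ C → False := by
    intro i j hij C hC hCX hi hj
    rcases arc_subset_of_isPreconnected hC hi hj with h | h
    · apply hzint i
      rw [mem_interior]
      exact ⟨_, h.trans hCX, isOpen_coe_Ioo _ _, ⟨z i, ⟨hpz i, hzp i j hij⟩, rfl⟩⟩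
    · apply hzint j
      rw [mem_interior]
      exact ⟨_, h.trans hCX, isOpen_coe_Ioo _ _, ⟨z j, ⟨hpz j, hz i j⟩, rfl⟩⟩
  let F : Fin m → ConnectedComponents X := fun i => ConnectedComponents.mk ⟨p i, hpX i⟩
  have hF : Function.Injective F := by
    intro i j hij
    by_contra hne
    have hcc : (⟨(p j : UnitAddCircle), hpX j⟩ : X) ∈
        connectedComponent (⟨(p i : UnitAddCircle), hpX i⟩ : X) := by
      have : connectedComponent (⟨(p j : UnitAddCircle), hpX j⟩ : X) =
          connectedComponent (⟨(p i : UnitAddCircle), hpX i⟩ : X) :=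
        (ConnectedComponents.coe_eq_coe.mp hij).symm
      rw [← this]
      exact mem_connectedComponent
    have hpre : IsPreconnected (Subtype.val ''
        connectedComponent (⟨(p i : UnitAddCircle), hpX i⟩ : X)) :=
      isPreconnected_connectedComponent.image _ continuous_subtype_val.continuousOn
    have hsub : Subtype.val '' connectedComponent (⟨(p i : UnitAddCircle), hpX i⟩ : X) ⊆ X := by
      rintro _ ⟨x, -, rfl⟩
      exact x.2
    have hmi : (p i : UnitAddCircle) ∈
        Subtype.val '' connectedComponent (⟨(p i : UnitAddCircle), hpX i⟩ : X) :=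
      ⟨_, mem_connectedComponent, rfl⟩
    have hmj : (p j : UnitAddCircle) ∈
        Subtype.val '' connectedComponent (⟨(p i : UnitAddCircle), hpX i⟩ : X) :=
      ⟨_, hcc, rfl⟩
    rcases lt_or_gt_of_ne hne with h | h
    · exact key i j h _ hpre hsub hmi hmj
    · exact key j i h _ hpre hsub hmj hmi
  have := ENat.card_le_card_of_injective hF
  simpa [petals] using this

end Pool.Agent.Lib.MP_38b438_an
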