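import Pool.Agent.Lib.MP_38b438_an.Example5

set_option autoImplicit false

/-!
A flower which meets all arcs around the cycle of `3/43` has at least seven petals.
-/

open MeasureTheory Set Topology

namespace Pool.Agent.Lib.MP_38b438_an

/-- The angle (in turns) of the point of the upper half circle with `2 cos = v`. -/
noncomputable def turn (v : ℝ) : ℝ := Real.arccos (v / 2) / (2 * Real.pi)

theorem turn_lt_turn {v w : ℝ} (h1 : -2 ≤ v) (h2 : v < w) (h3 : w ≤ 2) : turn w < turn v := by
  unfold turn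
  have hpi := Real.pi_pos
  have h4 : Real.arccos (w / 2) < Real.arccos (v / 2) :=
    Real.strictAntiOn_arccos ⟨by linarith, by linarith⟩ ⟨by linarith, by linarith⟩ (by linarith)
  gcongr

theorem turn_nonneg (v : ℝ) : 0 ≤ turn v :=
  div_nonneg (Real.arccos_nonneg _) (by positivity)

theorem turn_neg (v : ℝ) : turn (-v) = 1 / 2 - turn v := by
  unfold turn
  have hpi := Real.pi_pos
  rw [neg_div, Real.arccos_neg]
  field_simp

theorem eq_turn_of_pos {θ : UnitAddCircle} (h : 0 < sinTwo θ) :
    θ = ((turn (cosTwo θ) : ℝ) : UnitAddCircle) := by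
  obtain ⟨t, ⟨ht0, ht1⟩, rfl⟩ : ∃ t ∈ Ico (0 : ℝ) 1, (t : UnitAddCircle) = θ := by
    refine ⟨AddCircle.equivIco 1 0 θ, ?_, AddCircle.coe_equivIco⟩
    have := (AddCircle.equivIco 1 0 θ).2
    simpa using this
  rw [sinTwo_coe] at h
  have hpi := Real.pi_pos
  have h1 : t < 1 / 2 := by
    by_contra hcon
    rw [not_lt] at hcon
    have h2 : Real.sin (2 * Real.pi * t) ≤ 0 := by
      have h3 : Real.sin (2 * Real.pi * t) = Real.sin (2 * Real.pi * t - 2 * Real.pi) :=
        (Real.sin_sub_two_pi _).symm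
      rw [h3]
      apply Real.sin_nonpos_of_nonpos_of_neg_pi_le
      · nlinarith
      · nlinarith
    linarith
  congr 1
  unfold turn
  rw [cosTwo_coe, mul_div_cancel_left₀ _ two_ne_zero, Real.arccos_cos (by positivity)
    (by nlinarith)]
  field_simp

theorem eq_turn_of_neg {θ : UnitAddCircle} (h : sinTwo θ < 0) :
    θ = ((1 - turn (cosTwo θ) : ℝ) : UnitAddCircle) := by
  obtain ⟨t, ⟨ht0, ht1⟩, rfl⟩ : ∃ t ∈ Ico (0 : ℝ) 1, (t : UnitAddCircle) = θ := by
    refine ⟨AddCircle.equivIco 1 0 θ, ?_, AddCircle.coe_equivIco⟩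
    have := (AddCircle.equivIco 1 0 θ).2
    simpa using this
  rw [sinTwo_coe] at h
  have hpi := Real.pi_pos
  have h1 : 1 / 2 < t := by
    by_contra hcon
    rw [not_lt] at hcon
    have h2 : 0 ≤ Real.sin (2 * Real.pi * t) := by
      apply Real.sin_nonneg_of_nonneg_of_le_pi
      · positivity
      · nlinarith
    linarith
  congr 1
  unfold turn
  have h3 : Real.cos (2 * Real.pi * t) = Real.cos (2 * Real.pi * (1 - t)) := by
    rw [show 2 * Real.pi * (1 - t) = 2 * Real.pi - 2 * Real.pi * t by ring,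
      Real.cos_two_pi_sub]
  rw [cosTwo_coe, mul_div_cancel_left₀ _ two_ne_zero, h3, Real.arccos_cos (by nlinarith)
    (by nlinarith)]
  field_simp
  ring

theorem seven_le_petals {X : Set UnitAddCircle} (hX : IsFlower X)
    (h : ∀ i : Fin 14, ∃ p, p ∈ X ∧ p ∈ arc5 i) : 7 ≤ petals X := by
  have hhalf : ∀ t u : ℝ, (t : UnitAddCircle) ∈ X → ∀ n : ℕ, t + 1 / 2 = u + n →
      (u : UnitAddCircle) ∈ halfTurn X := by
    intro t u ht n hn
    refine ⟨(t : UnitAddCircle), ht, ?_⟩
    change (t : UnitAddCircle) + ((1 / 2 : ℝ) : UnitAddCircle) = (u : UnitAddCircle)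
    rw [← AddCircle.coe_add, hn, coe_add_nat]
  have hup : ∀ i : Fin 14, side5 i = 1 → ∃ v, lo5 (idx5 i) < v ∧ v < hi5 (idx5 i) ∧
      ((turn v : ℝ) : UnitAddCircle) ∈ X := by
    intro i hi
    obtain ⟨p, hp, h1, h2, h3⟩ := h i
    rw [hi, one_mul] at h3
    refine ⟨cosTwo p, h1, h2, ?_⟩
    rw [← eq_turn_of_pos h3]
    exact hp
  have hdown : ∀ i : Fin 14, side5 i = -1 → ∃ v, lo5 (idx5 i) < v ∧ v < hi5 (idx5 i) ∧
      ((1 - turn v : ℝ) : UnitAddCircle) ∈ X := by
    intro i hi
    obtain ⟨p, hp, h1, h2, h3⟩ := h i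
    rw [hi] at h3
    refine ⟨cosTwo p, h1, h2, ?_⟩
    rw [← eq_turn_of_neg (by linarith)]
    exact hp
  obtain ⟨v6, a6, b6, m6⟩ := hup 1 rfl
  obtain ⟨v10, a10, b10, m10⟩ := hup 5 rfl
  obtain ⟨v12, a12, b12, m12⟩ := hup 2 rfl
  obtain ⟨v19, a19, b19, m19⟩ := hup 10 rfl
  obtain ⟨v31, a31, b31, m31⟩ := hdown 9 rfl
  obtain ⟨v33, a33, b33, m33⟩ := hdown 12 rfl
  obtain ⟨v37, a37, b37, m37⟩ := hdown 8 rfl
  simp [lo5, hi5, idx5] at a6 b6 a10 b10 a12 b12 a19 b19 a31 b31 a33 b33 a37 b37
  have c1 : turn v6 < turn (-v31) := turn_lt_turn (by linarith) (by linarith) (by linarith)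
  have c2 : turn (-v31) < turn v10 := turn_lt_turn (by linarith) (by linarith) (by linarith)
  have c3 : turn v10 < turn (-v33) := turn_lt_turn (by linarith) (by linarith) (by linarith)
  have c4 : turn (-v33) < turn v12 := turn_lt_turn (by linarith) (by linarith) (by linarith)
  have c5 : turn v12 < turn (-v37) := turn_lt_turn (by linarith) (by linarith) (by linarith)
  have c6 : turn (-v37) < turn v19 := turn_lt_turn (by linarith) (by linarith) (by linarith)
  have c8 : turn v31 < turn (-v6) := turn_lt_turn (by linarith) (by linarith) (by linarith)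
  have c9 : turn (-v10) < turn v31 := turn_lt_turn (by linarith) (by linarith) (by linarith)
  have c10 : turn v33 < turn (-v10) := turn_lt_turn (by linarith) (by linarith) (by linarith)
  have c11 : turn (-v12) < turn v33 := turn_lt_turn (by linarith) (by linarith) (by linarith)
  have c12 : turn v37 < turn (-v12) := turn_lt_turn (by linarith) (by linarith) (by linarith)
  have c13 : turn (-v19) < turn v37 := turn_lt_turn (by linarith) (by linarith) (by linarith)
  have c14 : turn 2 < turn v6 := turn_lt_turn (by linarith) (by linarith) (by linarith)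
  have t0 := turn_nonneg 2
  have t1 := turn_nonneg (-v19)
  have n6 := turn_neg v6
  have n10 := turn_neg v10
  have n12 := turn_neg v12
  have n19 := turn_neg v19
  have n31 := turn_neg v31
  have n33 := turn_neg v33
  have n37 := turn_neg v37
  have key := le_petals hX (m := 7)
    ![turn v6, turn v10, turn v12, turn v19, 1 - turn v31, 1 - turn v33, 1 - turn v37]
    ![turn (-v31), turn (-v33), turn (-v37), 1 - turn (-v6), 1 - turn (-v10), 1 - turn (-v12),
      1 - turn (-v19)] ?_ ?_ ?_ ?_ ?_
  · exact_mod_cast key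
  · intro i
    fin_cases i <;> simp <;> linarith
  · intro i j hij
    fin_cases i <;> fin_cases j <;> simp at hij ⊢ <;> linarith
  · intro i j
    fin_cases i <;> fin_cases j <;> simp <;> linarith
  · intro i
    fin_cases i
    · exact m6
    · exact m10
    · exact m12
    · exact m19
    · exact m31
    · exact m33
    · exact m37
  · intro i
    fin_cases i
    · exact hhalf _ _ m31 1 (by simp; linarith)
    · exact hhalf _ _ m33 1 (by simp; linarith)
    · exact hhalf _ _ m37 1 (by simp; linarith)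
    · exact hhalf _ _ m6 0 (by simp; linarith)
    · exact hhalf _ _ m10 0 (by simp; linarith)
    · exact hhalf _ _ m12 0 (by simp; linarith)
    · exact hhalf _ _ m19 0 (by simp; linarith)

end Pool.Agent.Lib.MP_38b438_an
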