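import Mathlib

set_option autoImplicit false

/-!
A verified check for lower bounds of integer polynomials on intervals.
-/

namespace Pool.Agent.Lib.MP_38b438_an

/-- The value at `x` of the polynomial with the given coefficients (constant term first). -/
def ev (x : ℝ) : List ℤ → ℝ
  | [] => 0
  | a :: l => a + x * ev x l

/-- `p + (c + y) * m(y)` as a polynomial in `y`. -/
def mulShift (c : ℤ) : ℤ → List ℤ → List ℤ
  | p, [] => [p]
  | p, m :: ms => (p + c * m) :: mulShift c m ms

theorem ev_mulShift (y : ℝ) (c : ℤ) (m : List ℤ) (p : ℤ) :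
    ev y (mulShift c p m) = p + (c + y) * ev y m := by
  induction m generalizing p with
  | nil => simp [mulShift, ev]
  | cons a m ih =>
    simp only [mulShift, ev, ih]
    push_cast
    ring

/-- The Taylor expansion at `c`. -/
def taylorShift (c : ℤ) : List ℤ → List ℤ
  | [] => []
  | a :: l => mulShift c a (taylorShift c l)

theorem ev_taylorShift (y : ℝ) (c : ℤ) (l : List ℤ) :
    ev y (taylorShift c l) = ev (c + y) l := by
  induction l with
  | nil => simp [taylorShift, ev]
  | cons a l ih => simp only [taylorShift, ev_mulShift, ev, ih]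

/-- `∑ |t_k| ρ^k`. -/
def absTail (ρ : ℤ) : List ℤ → ℤ
  | [] => 0
  | t :: ts => |t| + ρ * absTail ρ ts

theorem abs_ev_le {y : ℝ} {ρ : ℤ} (hy : |y| ≤ ρ) (l : List ℤ) :
    |ev y l| ≤ (absTail ρ l : ℝ) := by
  induction l with
  | nil => simp [ev, absTail]
  | cons a l ih =>
    simp only [ev, absTail]
    push_cast
    calc |(a : ℝ) + y * ev y l| ≤ |(a : ℝ)| + |y * ev y l| := abs_add_le _ _
      _ = |(a : ℝ)| + |y| * |ev y l| := by rw [abs_mul]
      _ ≤ |(a : ℝ)| + ρ * absTail ρ l := by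
        gcongr
        exact (abs_nonneg y).trans hy

/-- A sufficient condition for `thr ≤ t(y)` for all `|y| ≤ ρ`. -/
def checkAt (thr ρ : ℤ) : List ℤ → Bool
  | t0 :: t1 :: t2 :: ts =>
    decide (ρ * absTail ρ (t1 :: t2 :: ts) ≤ t0 - thr) ||
      (decide (0 < t2 - ρ * absTail ρ ts) &&
        decide (t1 * t1 ≤ 4 * (t0 - thr) * (t2 - ρ * absTail ρ ts)))
  | _ => false

theorem checkAt_sound {thr ρ : ℤ} {t : List ℤ} (h : checkAt thr ρ t = true) {y : ℝ}
    (hy : |y| ≤ ρ) : (thr : ℝ) ≤ ev y t := by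
  have hρ : (0 : ℝ) ≤ ρ := (abs_nonneg y).trans hy
  match t with
  | [] => simp [checkAt] at h
  | [_] => simp [checkAt] at h
  | [_, _] => simp [checkAt] at h
  | t0 :: t1 :: t2 :: ts =>
    simp only [checkAt, Bool.or_eq_true, Bool.and_eq_true, decide_eq_true_eq] at h
    rcases h with h | ⟨h1, h2⟩
    · have e1 : |ev y (t1 :: t2 :: ts)| ≤ (absTail ρ (t1 :: t2 :: ts) : ℝ) := abs_ev_le hy _
      have e2 : |y * ev y (t1 :: t2 :: ts)| ≤ ρ * (absTail ρ (t1 :: t2 :: ts) : ℝ) := by
        rw [abs_mul]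
        gcongr
      have e3 : ((ρ * absTail ρ (t1 :: t2 :: ts) : ℤ) : ℝ) ≤ ((t0 - thr : ℤ) : ℝ) := by
        exact_mod_cast h
      have e4 := neg_abs_le (y * ev y (t1 :: t2 :: ts))
      have e5 : ev y (t0 :: t1 :: t2 :: ts) = t0 + y * ev y (t1 :: t2 :: ts) := rfl
      rw [e5]
      push_cast at e3
      linarith
    · have e1 : |ev y ts| ≤ (absTail ρ ts : ℝ) := abs_ev_le hy _
      have e2 : |y * ev y ts| ≤ ρ * (absTail ρ ts : ℝ) := by
        rw [abs_mul]
        gcongr
      have e3 := neg_abs_le (y * ev y ts)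
      have e4 : (0 : ℝ) < ((t2 - ρ * absTail ρ ts : ℤ) : ℝ) := by exact_mod_cast h1
      have e5 : ((t1 * t1 : ℤ) : ℝ) ≤ ((4 * (t0 - thr) * (t2 - ρ * absTail ρ ts) : ℤ) : ℝ) := by
        exact_mod_cast h2
      push_cast at e4 e5
      have e6 : ev y (t0 :: t1 :: t2 :: ts) = t0 + y * (t1 + y * (t2 + y * ev y ts)) := rfl
      rw [e6]
      set A : ℝ := (t2 : ℝ) - ρ * absTail ρ ts with hA
      have e7 : 0 ≤ y ^ 2 * ((t2 + y * ev y ts) - A) := by
        apply mul_nonneg (sq_nonneg y)
        rw [hA]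
        linarith
      have e8 : 0 ≤ A * (((t0 : ℝ) - thr) + t1 * y + A * y ^ 2) := by
        nlinarith [sq_nonneg (2 * A * y + t1)]
      have e9 : 0 ≤ ((t0 : ℝ) - thr) + t1 * y + A * y ^ 2 := by
        by_contra hcon
        rw [not_le] at hcon
        have := mul_neg_of_pos_of_neg e4 hcon
        linarith
      nlinarith

/-- Rescaling: the coefficients of `S ^ n * P (X / S)`, together with `S ^ (n + 1)`. -/
def rescale (S : ℤ) : List ℤ → List ℤ × ℤ
  | [] => ([], 1)
  | a :: l => (a * (rescale S l).2 :: (rescale S l).1, (rescale S l).2 * S)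

theorem rescale_snd (S : ℤ) (l : List ℤ) : (rescale S l).2 = S ^ l.length := by
  induction l with
  | nil => simp [rescale]
  | cons a l ih => simp [rescale, ih, pow_succ]

theorem ev_rescale (S : ℤ) (v : ℝ) (l : List ℤ) :
    S * ev (S * v) (rescale S l).1 = (S : ℝ) ^ l.length * ev v l := by
  induction l with
  | nil => simp [rescale, ev]
  | cons a l ih =>
    have h1 : ev (S * v) (rescale S (a :: l)).1 =
        a * (S : ℝ) ^ l.length + S * v * ev (S * v) (rescale S l).1 := by
      simp [rescale, ev, rescale_snd]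
    have h2 : ev v (a :: l) = a + v * ev v l := rfl
    rw [h1, h2, List.length_cons, pow_succ]
    linear_combination (S * v : ℝ) * ih

/-- A chain of intervals `[c - ρ, c + ρ]` which covers `[x, xend]`, on each of which the
polynomial is at least `thr`. -/
def regionCheck (P : List ℤ) (thr xend : ℤ) : ℤ → List (ℤ × ℤ) → Bool
  | x, [] => decide (xend ≤ x)
  | x, (c, ρ) :: l =>
    decide (c - ρ ≤ x) && (checkAt thr ρ (taylorShift c P) && regionCheck P thr xend (c + ρ) l)

theorem regionCheck_sound {P : List ℤ} {thr xend : ℤ} {l : List (ℤ × ℤ)} {x : ℤ}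
    (h : regionCheck P thr xend x l = true) {X : ℝ} (h1 : (x : ℝ) < X) (h2 : X ≤ xend) :
    (thr : ℝ) ≤ ev X P := by
  induction l generalizing x with
  | nil =>
    simp only [regionCheck, decide_eq_true_eq] at h
    have : (xend : ℝ) ≤ x := by exact_mod_cast h
    linarith
  | cons a l ih =>
    obtain ⟨c, ρ⟩ := a
    simp only [regionCheck, Bool.and_eq_true, decide_eq_true_eq] at h
    obtain ⟨h3, h4, h5⟩ := h
    rcases lt_or_ge ((c + ρ : ℤ) : ℝ) X with h6 | h6
    · exact ih h5 h6
    · have h7 : ((c - ρ : ℤ) : ℝ) ≤ x := by exact_mod_cast h3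
      push_cast at h6 h7
      have h8 : |X - c| ≤ ρ := by
        rw [abs_le]
        constructor <;> linarith
      have h9 := checkAt_sound h4 h8
      rw [ev_taylorShift] at h9
      simpa using h9

theorem regionCheck_sound' {P : List ℤ} {thr xend : ℤ} {a : ℤ × ℤ} {l : List (ℤ × ℤ)} {x : ℤ}
    (h : regionCheck P thr xend x (a :: l) = true) {X : ℝ} (h1 : (x : ℝ) ≤ X) (h2 : X ≤ xend) :
    (thr : ℝ) ≤ ev X P := by
  obtain ⟨c, ρ⟩ := a
  simp only [regionCheck, Bool.and_eq_true, decide_eq_true_eq] at h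
  obtain ⟨h3, h4, h5⟩ := h
  rcases lt_or_ge ((c + ρ : ℤ) : ℝ) X with h6 | h6
  · exact regionCheck_sound h5 h6 h2
  · have h7 : ((c - ρ : ℤ) : ℝ) ≤ x := by exact_mod_cast h3
    push_cast at h6 h7
    have h8 : |X - c| ≤ ρ := by
      rw [abs_le]
      constructor <;> linarith
    have h9 := checkAt_sound h4 h8
    rw [ev_taylorShift] at h9
    simpa using h9

/-- The check for the polynomial `l` in the variable `v`, with `X = S v`. -/
def regionCheckScaled (l : List ℤ) (S thr xend x : ℤ) (ivs : List (ℤ × ℤ)) : Bool :=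
  decide (0 < S) &&
    regionCheck (rescale S l).1 (thr * (rescale S l.tail).2) xend x ivs

theorem regionCheckScaled_sound {l : List ℤ} (hl : l ≠ []) {S thr xend x : ℤ}
    {i : ℤ × ℤ} {ivs : List (ℤ × ℤ)} (h : regionCheckScaled l S thr xend x (i :: ivs) = true)
    {v : ℝ} (h1 : (x : ℝ) ≤ S * v) (h2 : S * v ≤ xend) : (thr : ℝ) ≤ ev v l := by
  obtain ⟨a, l, rfl⟩ := List.exists_cons_of_ne_nil hl
  simp only [regionCheckScaled, Bool.and_eq_true, decide_eq_true_eq, List.tail_cons] at h
  obtain ⟨hS, h⟩ := h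
  have hS' : (0 : ℝ) < S := by exact_mod_cast hS
  have h3 := regionCheck_sound' h h1 h2
  have h4 := ev_rescale S v (a :: l)
  rw [rescale_snd] at h3
  push_cast at h3
  rw [List.length_cons, pow_succ] at h4
  have h5 : ev (S * v) (rescale S (a :: l)).1 = (S : ℝ) ^ l.length * ev v (a :: l) := by
    have : (S : ℝ) * ev (S * v) (rescale S (a :: l)).1 =
        S * ((S : ℝ) ^ l.length * ev v (a :: l)) := by
      rw [h4]
      ring
    exact mul_left_cancel₀ hS'.ne' this
  rw [h5] at h3
  have h6 : (0 : ℝ) < (S : ℝ) ^ l.length := by positivity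
  have h7 : (thr : ℝ) * (S : ℝ) ^ l.length ≤ ev v (a :: l) * (S : ℝ) ^ l.length := by
    linarith
  exact le_of_mul_le_mul_right h7 h6

end Pool.Agent.Lib.MP_38b438_an
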